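import Mathlib

/-!
Definitions: Lie algebra of a Zariski closure, stable subspaces, isolated eigenvalues and the
Lefschetz Lie algebra.
-/

set_option autoImplicit false

namespace Pool.Agent.Lib.MP_d61fbb_ag

open Matrix

variable {K n Γ : Type} [Field K] [Fintype n] [DecidableEq n] [Group Γ]

/-- `Z` is tangent at the identity to the Zariski closure of `S`: the differential at the identity
of every polynomial vanishing on `S` kills `Z`. -/
def Tangent (S : Set (Matrix n n K)) (Z : Matrix n n K) : Prop :=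
  ∀ p : MvPolynomial (n × n) K, (∀ g ∈ S, MvPolynomial.eval (fun ij => g ij.1 ij.2) p = 0) →
    ∑ ij : n × n, Z ij.1 ij.2 *
      MvPolynomial.eval (fun kl => (1 : Matrix n n K) kl.1 kl.2) (MvPolynomial.pderiv ij p) = 0

/-- The subspace `U` is stable under the subgroup `H`. -/
def Stable (ρ : Γ →* Matrix n n K) (H : Subgroup Γ) (U : Submodule K (n → K)) : Prop :=
  ∀ γ ∈ H, ∀ u ∈ U, ρ γ *ᵥ u ∈ U

/-- `y` is an eigenvalue of `F`. -/
def Eig (F : Matrix n n K) (y : K) : Prop := ∃ w : n → K, w ≠ 0 ∧ F *ᵥ w = y • w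

/-- `v` spans the eigenspace of an eigenvalue `x` of `F` that takes part in no nontrivial relation
`x y = z u` between eigenvalues and is not a root of unity times another eigenvalue; `c` is the
multiplier of `F`. -/
def Isolated (F : Matrix n n K) (c : K) (v : n → K) : Prop :=
  v ≠ 0 ∧ ∃ x : K, (∀ w, F *ᵥ w = x • w ↔ ∃ t : K, w = t • v) ∧ x * x ≠ c ∧
    (∀ y, Eig F y → ∀ N : ℕ, 0 < N → y ^ N = x ^ N → y = x) ∧
    ∀ y z u, Eig F y → Eig F z → Eig F u → x * y = z * u → z = x ∨ u = x ∨ x * y = c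

/-- The Lefschetz Lie algebra: infinitesimal isometries of `B` commuting with the commutant. -/
def Lefschetz (ρ : Γ →* Matrix n n K) (B X : Matrix n n K) : Prop :=
  Xᵀ * B + B * X = 0 ∧ ∀ d : Matrix n n K, (∀ γ, ρ γ * d = d * ρ γ) → X * d = d * X

end Pool.Agent.Lib.MP_d61fbb_ag
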