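import Mathlib
import Pool.Agent.Lib.MP_d61fbb_ag.Defs

-- part Pool.Agent.Lib.MP_d61fbb_ag.Zar
section

/-!
The tangent space at the identity of the Zariski closure of a group of matrices is a Lie algebra,
stable under conjugation, and contains the logarithms of diagonalisable elements.
-/

set_option autoImplicit false
set_option linter.unusedSectionVars false

namespace Pool.Agent.Lib.MP_d61fbb_ag

open Matrix MvPolynomial

variable {K n : Type} [Field K] [Fintype n] [DecidableEq n]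

/-- Points of the Zariski closure with values in a commutative algebra. -/
def Pt (S : Set (Matrix n n K)) {R : Type} [CommRing R] [Algebra K R] (g : Matrix n n R) : Prop :=
  ∀ p : MvPolynomial (n × n) K, (∀ s ∈ S, eval (fun ij => s ij.1 ij.2) p = 0) →
    aeval (fun ij : n × n => g ij.1 ij.2) p = 0

variable {S : Set (Matrix n n K)} {R : Type} [CommRing R] [Algebra K R]

theorem aeval_alg (s : Matrix n n K) (p : MvPolynomial (n × n) K) :
    aeval (fun ij : n × n => s.map (algebraMap K R) ij.1 ij.2) p =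
      algebraMap K R (eval (fun ij => s ij.1 ij.2) p) := by
  exact aeval_algebraMap_apply R (fun ij : n × n => s ij.1 ij.2) p

theorem Pt.of_mem {s : Matrix n n K} (hs : s ∈ S) : Pt S (s.map (algebraMap K R)) := fun p hp => by
  rw [aeval_alg, hp s hs, map_zero]

theorem Pt.ext_scalars {g : Matrix n n R} (hg : Pt S g) (q : MvPolynomial (n × n) R)
    (hq : ∀ s ∈ S, eval (fun ij => s.map (algebraMap K R) ij.1 ij.2) q = 0) :
    eval (fun ij => g ij.1 ij.2) q = 0 := by
  classical
  let b := Module.Basis.ofVectorSpace K R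
  let T := q.support.biUnion fun m => (b.repr (coeff m q)).support
  let Q := fun k => ∑ m ∈ q.support, monomial m (b.repr (coeff m q) k)
  have key : ∀ f : n × n → R, eval f q = ∑ k ∈ T, b k * aeval f (Q k) := by
    intro f
    rw [eval_eq]
    simp only [Q, map_sum, aeval_monomial, Finset.mul_sum]
    rw [Finset.sum_comm]
    refine Finset.sum_congr rfl fun m hm => ?_
    simp only [← mul_assoc]
    rw [← Finset.sum_mul]
    congr 1
    conv_lhs => rw [← b.linearCombination_repr (coeff m q), Finsupp.linearCombination_apply,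
      Finsupp.sum_of_support_subset _ (s := T) (Finset.subset_biUnion_of_mem
        (fun m => (b.repr (coeff m q)).support) hm) (fun i a => a • b i)
        (fun _ _ => zero_smul _ _)]
    exact Finset.sum_congr rfl fun k _ => by rw [Algebra.smul_def, mul_comm]
  rw [key]
  refine Finset.sum_eq_zero fun k hk => ?_
  rw [hg (Q k) fun s hs => ?_, mul_zero]
  have h1 := hq s hs
  rw [key] at h1
  simp only [aeval_alg, mul_comm (b _), ← Algebra.smul_def] at h1
  exact linearIndependent_iff'.1 b.linearIndependent T _ h1 k hk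

theorem eval_aeval_mul (a b g : Matrix n n R) (p : MvPolynomial (n × n) K) :
    eval (fun ij => g ij.1 ij.2) (aeval (fun ij : n × n =>
      (a.map C * (Matrix.of fun i j => X (i, j)) * b.map C : Matrix n n (MvPolynomial (n × n) R))
        ij.1 ij.2) p) = aeval (fun ij : n × n => (a * g * b) ij.1 ij.2) p := by
  induction p using MvPolynomial.induction_on with
  | C c => simp
  | add p q hp hq => simp only [map_add, hp, hq]
  | mul_X p ij hp => simp only [map_mul, hp, aeval_X]; simp [Matrix.mul_apply]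

theorem Pt.mul (hS : ∀ a ∈ S, ∀ b ∈ S, a * b ∈ S) {g h : Matrix n n R} (hg : Pt S g)
    (hh : Pt S h) : Pt S (g * h) := by
  intro p hp
  have e := eval_aeval_mul 1 h g p
  rw [one_mul] at e
  rw [← e]
  refine hg.ext_scalars _ fun s hs => ?_
  have e2 := eval_aeval_mul (s.map (algebraMap K R)) 1 h p
  rw [mul_one] at e2
  rw [eval_aeval_mul, one_mul, ← e2]
  refine hh.ext_scalars _ fun t ht => ?_
  rw [eval_aeval_mul, mul_one, ← Matrix.map_mul, aeval_alg, hp _ (hS s hs t ht), map_zero]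

theorem aeval_eps (η : R) (hη : η * η = 0) (Z : Matrix n n K) (p : MvPolynomial (n × n) K) :
    aeval (fun ij : n × n => (1 + η • Z.map (algebraMap K R)) ij.1 ij.2) p =
      algebraMap K R (eval (fun kl => (1 : Matrix n n K) kl.1 kl.2) p) +
        η * algebraMap K R (∑ ij : n × n, Z ij.1 ij.2 *
          eval (fun kl => (1 : Matrix n n K) kl.1 kl.2) (pderiv ij p)) := by
  induction p using MvPolynomial.induction_on with
  | C c => simp
  | add p q hp hq => simp only [map_add, hp, hq, mul_add, Finset.sum_add_distrib]; ring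
  | mul_X p kl hp =>
    have e1 : (1 : Matrix n n R) kl.1 kl.2 = algebraMap K R ((1 : Matrix n n K) kl.1 kl.2) := by
      simp [Matrix.one_apply]
    have e2 : ∑ ij : n × n, Z ij.1 ij.2 * (eval (fun kl => (1 : Matrix n n K) kl.1 kl.2) p *
        eval (fun kl => (1 : Matrix n n K) kl.1 kl.2) (pderiv ij (X kl))) =
        Z kl.1 kl.2 * eval (fun kl => (1 : Matrix n n K) kl.1 kl.2) p := by
      rw [Finset.sum_eq_single kl]
      · simp
      · intro ij _ h
        simp [pderiv_X_of_ne h.symm]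
      · simp
    rw [map_mul, hp]
    simp only [map_mul, aeval_X, Derivation.leibniz, smul_eq_mul, map_add, mul_add,
      Finset.sum_add_distrib, e2, eval_X, Matrix.add_apply, Matrix.smul_apply, Matrix.map_apply, e1]
    simp only [mul_left_comm (Z _ _) ((1 : Matrix n n K) kl.1 kl.2), ← Finset.mul_sum, map_mul]
    generalize (∑ ij : n × n, Z ij.1 ij.2 *
      eval (fun kl => (1 : Matrix n n K) kl.1 kl.2) (pderiv ij p)) = D
    linear_combination (algebraMap K R D * algebraMap K R (Z kl.1 kl.2)) * hη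

theorem Tangent.pt (h1 : 1 ∈ S) {Z : Matrix n n K} (hZ : Tangent S Z) (η : R) (hη : η * η = 0) :
    Pt S (1 + η • Z.map (algebraMap K R)) := fun p hp => by
  rw [aeval_eps η hη, hp 1 h1, hZ p hp]
  simp

theorem Pt.tangent (h1 : 1 ∈ S) {Z : Matrix n n K} (η : R) (hη : η * η = 0)
    (h0 : ∀ c : K, η * algebraMap K R c = 0 → c = 0)
    (hZ : Pt S (1 + η • Z.map (algebraMap K R))) : Tangent S Z := fun p hp => by
  have := hZ p hp
  rw [aeval_eps η hη, hp 1 h1, map_zero, zero_add] at this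
  exact h0 _ this

theorem eps_inj (c : K) (h : (DualNumber.eps : DualNumber K) * algebraMap K _ c = 0) : c = 0 := by
  simpa [TrivSqZeroExt.algebraMap_eq_inl] using congrArg TrivSqZeroExt.snd h

/-- The tangent space as a subspace. -/
def tang (S : Set (Matrix n n K)) : Submodule K (Matrix n n K) where
  carrier := {Z | Tangent S Z}
  zero_mem' := fun p _ => by simp
  add_mem' := fun {a b} ha hb p hp => by
    simp only [Matrix.add_apply, add_mul, Finset.sum_add_distrib, ha p hp, hb p hp, add_zero]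
  smul_mem' := fun c a ha p hp => by
    simp only [Matrix.smul_apply, smul_eq_mul, mul_assoc, ← Finset.mul_sum, ha p hp, mul_zero]

theorem comm_eps {A : Type} [Ring A] [Algebra R A] {a b : R} (ha : a * a = 0) (hb : b * b = 0)
    (X Y : A) : (1 + a • X) * (1 + b • Y) * (1 + -a • X) * (1 + -b • Y) =
      1 + (a * b) • (X * Y - Y * X) := by
  simp only [mul_add, add_mul, smul_mul_assoc, mul_smul_comm, smul_smul, one_mul, mul_one,
    smul_add]
  match_scalars <;> grind

theorem Tangent.bracket (hS : ∀ a ∈ S, ∀ b ∈ S, a * b ∈ S) (h1 : 1 ∈ S) {X Y : Matrix n n K}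
    (hX : Tangent S X) (hY : Tangent S Y) : Tangent S (X * Y - Y * X) := by
  let a : DualNumber (DualNumber K) := algebraMap (DualNumber K) _ DualNumber.eps
  let b : DualNumber (DualNumber K) := DualNumber.eps
  have ha : a * a = 0 := by rw [← map_mul, DualNumber.eps_mul_eps, map_zero]
  have hb : b * b = 0 := DualNumber.eps_mul_eps
  have h := (((hX.pt h1 a ha).mul hS (hY.pt h1 b hb)).mul hS
    (hX.pt h1 (-a) (by simpa using ha))).mul hS (hY.pt h1 (-b) (by simpa using hb))
  refine Pt.tangent h1 (a * b) (by linear_combination b * b * ha) (fun c hc => ?_) ?_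
  · simpa [a, b, TrivSqZeroExt.algebraMap_eq_inl', TrivSqZeroExt.algebraMap_eq_inl] using
      congrArg (fun z => z.snd.snd) hc
  · rw [Matrix.map_sub _ (map_sub _), Matrix.map_mul, Matrix.map_mul]
    exact comm_eps (R := DualNumber (DualNumber K)) ha hb (X.map (algebraMap K _))
      (Y.map (algebraMap K (DualNumber (DualNumber K)))) ▸ h

theorem Tangent.conj (hS : ∀ a ∈ S, ∀ b ∈ S, a * b ∈ S) (h1 : 1 ∈ S) {s t Z : Matrix n n K}
    (hs : s ∈ S) (ht : t ∈ S) (hst : s * t = 1) (hZ : Tangent S Z) : Tangent S (s * Z * t) := by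
  have h := ((Pt.of_mem hs).mul hS (hZ.pt (R := DualNumber K) h1 _ DualNumber.eps_mul_eps)).mul hS
    (Pt.of_mem ht)
  refine Pt.tangent (R := DualNumber K) h1 _ DualNumber.eps_mul_eps eps_inj ?_
  convert h using 1
  rw [mul_add, add_mul, mul_one, ← Matrix.map_mul, hst, mul_smul_comm, smul_mul_assoc,
    Matrix.map_mul, Matrix.map_mul, Matrix.map_one _ (map_zero _) (map_one _)]

theorem Tangent.mem_span {Z : Matrix n n K} (hZ : Tangent S Z) : Z ∈ Submodule.span K S := by
  by_contra hn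
  obtain ⟨f, hf, h0⟩ := Submodule.exists_dual_map_eq_bot_of_notMem hn inferInstance
  have e : ∀ g : Matrix n n K, ∑ ij : n × n, g ij.1 ij.2 * f (single ij.1 ij.2 1) = f g := by
    intro g
    conv_rhs => rw [Matrix.matrix_eq_sum_single g, ← Finset.sum_product']
    rw [map_sum]
    refine Finset.sum_congr rfl fun ij _ => ?_
    rw [← smul_eq_mul, ← map_smul, smul_single, smul_eq_mul, mul_one]
  have := hZ (∑ ij : n × n, X ij * C (f (single ij.1 ij.2 1))) fun g hg => by
    simp only [map_sum, map_mul, eval_X, eval_C, e]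
    exact (Submodule.eq_bot_iff _).1 h0 _ (Submodule.mem_map_of_mem (Submodule.subset_span hg))
  refine hf ?_
  rw [← e, ← this]
  refine Finset.sum_congr rfl fun ij _ => ?_
  congr 1
  simp only [map_sum, Derivation.leibniz, pderiv_C, smul_eq_mul]
  rw [Finset.sum_eq_single ij]
  · simp
  · intro kl _ h
    simp [pderiv_X_of_ne h]
  · simp

theorem aeval_comp_map {R' : Type} [CommRing R'] [Algebra K R'] (ψ : R →ₐ[K] R')
    (g : Matrix n n R) (p : MvPolynomial (n × n) K) :
    ψ (aeval (fun ij : n × n => g ij.1 ij.2) p) =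
      aeval (fun ij : n × n => g.map ψ ij.1 ij.2) p := by
  rw [← AlgHom.comp_apply, comp_aeval]
  rfl

theorem tangent_log {ι : Type} (s : Finset ι) (x : ι → Kˣ) (π : ι → Matrix n n K)
    (hpow : ∀ N : ℕ, ∑ i ∈ s, (x i : K) ^ N • π i ∈ S) (h1 : ∑ i ∈ s, π i = 1)
    (l : Additive Kˣ →+ K) : Tangent S (∑ i ∈ s, l (Additive.ofMul (x i)) • π i) := by
  have hS1 : 1 ∈ S := by simpa [h1] using hpow 0
  let G : Matrix n n (MonoidAlgebra K Kˣ) :=
    ∑ i ∈ s, MonoidAlgebra.of K Kˣ (x i) • (π i).map (algebraMap K _)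
  have hG : ∀ {R : Type} [CommRing R] [Algebra K R] (χ : Kˣ →* R),
      G.map (MonoidAlgebra.lift K R Kˣ χ) = ∑ i ∈ s, χ (x i) • (π i).map (algebraMap K R) := by
    intro R _ _ χ
    ext i j
    simp only [G, Matrix.map_apply, Matrix.sum_apply, Matrix.smul_apply, map_sum, smul_eq_mul,
      map_mul, MonoidAlgebra.lift_of, AlgHom.commutes]
  let χ : Kˣ →* DualNumber K :=
    { toFun := fun y => 1 + DualNumber.eps * algebraMap K _ (l (Additive.ofMul y))
      map_one' := by simp
      map_mul' := fun y z => by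
        rw [ofMul_mul, map_add, map_add]
        linear_combination (-algebraMap K (DualNumber K) (l (Additive.ofMul y)) *
          algebraMap K (DualNumber K) (l (Additive.ofMul z))) * DualNumber.eps_mul_eps (R := K) }
  refine Pt.tangent hS1 _ DualNumber.eps_mul_eps eps_inj fun p hp => ?_
  have e : 1 + (DualNumber.eps : DualNumber K) •
      (∑ i ∈ s, l (Additive.ofMul (x i)) • π i).map (algebraMap K _) =
      G.map (MonoidAlgebra.lift K _ Kˣ χ) := by
    rw [hG, ← Matrix.map_one (algebraMap K (DualNumber K)) (map_zero _) (map_one _), ← h1]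
    ext i j : 1
    simp only [χ, MonoidHom.coe_mk, OneHom.coe_mk, Matrix.add_apply, Matrix.map_apply,
      Matrix.sum_apply, Matrix.smul_apply, map_sum, smul_eq_mul, map_mul, Finset.mul_sum,
      ← Finset.sum_add_distrib]
    exact Finset.sum_congr rfl fun k _ => by ring
  rw [e, ← aeval_comp_map]
  suffices h0 : aeval (fun ij : n × n => G ij.1 ij.2) p = 0 by rw [h0, map_zero]
  have hN : ∀ N : ℕ, MonoidAlgebra.lift K K Kˣ ((powMonoidHom N).comp (Units.coeHom K))
      (aeval (fun ij : n × n => G ij.1 ij.2) p) = 0 := by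
    intro N
    rw [aeval_comp_map, hG, ← hp _ (hpow N), ← coe_aeval_eq_eval]
    rfl
  generalize aeval (fun ij : n × n => G ij.1 ij.2) p = q at hN
  have li := (linearIndependent_monoidHom (Multiplicative ℕ) K).comp
    (fun y : Kˣ => powersHom K (y : K)) fun y z e => Units.ext ((powersHom K).injective e)
  ext y
  refine congrFun (congrArg DFunLike.coe (linearIndependent_iff.1 li q.coeff ?_)) y
  ext N
  have := hN N.toAdd
  rw [MonoidAlgebra.lift_apply] at this
  rw [Finsupp.linearCombination_apply, Finsupp.sum_apply']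
  exact this

end Pool.Agent.Lib.MP_d61fbb_ag
end

-- part Pool.Agent.Lib.MP_d61fbb_ag.Lie
section

/-!
Lie algebras of infinitesimal similitudes normalised by a semisimple element of rank two.
-/

set_option autoImplicit false
set_option linter.unusedSectionVars false

namespace Pool.Agent.Lib.MP_d61fbb_ag

open Module

variable {K V : Type} [Field K] [CharZero K] [AddCommGroup V] [Module K V]

/-- The infinitesimal isometry attached to two vectors. -/
def EE (φ : V →ₗ[K] V →ₗ[K] K) (ε : K) : V →ₗ[K] V →ₗ[K] End K V :=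
  LinearMap.mk₂ K (fun u w => (φ w).smulRight u - ε • (φ u).smulRight w)
    (fun _ _ _ => by ext; simp; module) (fun _ _ _ => by ext; simp; module)
    (fun _ _ _ => by ext; simp; module) (fun _ _ _ => by ext; simp; module)

theorem EE_apply (φ : V →ₗ[K] V →ₗ[K] K) (ε : K) (u w a : V) :
    EE φ ε u w a = φ w a • u - (ε * φ u a) • w := by
  simp [EE, smul_smul]

/-- Stability under a set of endomorphisms. -/
def Stab (s : Set (End K V)) (U : Submodule K V) : Prop := ∀ Z ∈ s, ∀ u ∈ U, Z u ∈ U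

/-- The smallest stable subspace containing a vector. -/
def gen (s : Set (End K V)) (v : V) : Submodule K V := sInf {U | v ∈ U ∧ Stab s U}

theorem mem_gen (s : Set (End K V)) (v : V) : v ∈ gen s v :=
  Submodule.mem_sInf.2 fun _ h => h.1

theorem gen_stab (s : Set (End K V)) (v : V) : Stab s (gen s v) := fun Z hZ u hu =>
  Submodule.mem_sInf.2 fun U h => h.2 Z hZ u (Submodule.mem_sInf.1 hu U h)

theorem gen_le {s : Set (End K V)} {v : V} {U : Submodule K V} (h1 : v ∈ U) (h2 : Stab s U) :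
    gen s v ≤ U := sInf_le ⟨h1, h2⟩

/-- A form with a Lie algebra of infinitesimal similitudes. -/
structure LieData (φ : V →ₗ[K] V →ₗ[K] K) (ε : K) (g : Submodule K (End K V)) : Prop where
  sym : ∀ a b, φ a b = ε * φ b a
  sq : ε * ε = 1
  nd : ∀ a, (∀ b, φ a b = 0) → a = 0
  br : ∀ X ∈ g, ∀ Y ∈ g, X * Y - Y * X ∈ g
  iso : ∀ Z ∈ g, ∃ s, ∀ a b, φ (Z a) b + φ a (Z b) = s * φ a b

/-- A hyperbolic pair whose rank two element normalises the Lie algebra. -/
structure Pair (φ : V →ₗ[K] V →ₗ[K] K) (ε : K) (g : Submodule K (End K V)) (v v' : V) : Prop where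
  h1 : φ v' v = 1
  h0 : φ v v = 0
  h0' : φ v' v' = 0
  norm : ∀ Z ∈ g, EE φ ε v v' * Z - Z * EE φ ε v v' ∈ g
  st : ∀ U, Stab (g : Set (End K V)) U → ∀ u ∈ U, φ v' u • v ∈ U
  st' : ∀ U, Stab (g : Set (End K V)) U → ∀ u ∈ U, φ v u • v' ∈ U

variable {φ : V →ₗ[K] V →ₗ[K] K} {ε : K} {g : Submodule K (End K V)} {v v' : V}

theorem br_EE {Z : End K V} {s : K} (h : ∀ a b, φ (Z a) b + φ a (Z b) = s * φ a b) (u w : V) :
    Z * EE φ ε u w - EE φ ε u w * Z = EE φ ε (Z u) w + EE φ ε u (Z w) - s • EE φ ε u w := by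
  ext a
  have e1 : φ w (Z a) = s * φ w a - φ (Z w) a := by linear_combination h w a
  have e2 : φ u (Z a) = s * φ u a - φ (Z u) a := by linear_combination h u a
  simp only [LinearMap.sub_apply, LinearMap.add_apply, LinearMap.smul_apply, End.mul_apply,
    EE_apply, map_sub, map_smul, e1, e2]
  module

theorem LieData.EE_iso (L : LieData φ ε g) (u w a b : V) :
    φ (EE φ ε u w a) b + φ a (EE φ ε u w b) = 0 * φ a b := by
  simp only [EE_apply, map_sub, map_smul, LinearMap.sub_apply, LinearMap.smul_apply, smul_eq_mul]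
  rw [L.sym a u, L.sym a w]
  linear_combination (-φ u b * φ w a) * L.sq

theorem LieData.EE_swap (L : LieData φ ε g) (u w : V) : EE φ ε w u = -ε • EE φ ε u w := by
  ext a
  simp only [LinearMap.smul_apply, EE_apply]
  match_scalars
  · linear_combination (-φ u a) * L.sq
  · ring

theorem LieData.ne (L : LieData φ ε g) : ε ≠ 0 := left_ne_zero_of_mul_eq_one L.sq

theorem Pair.symm (L : LieData φ ε g) (P : Pair φ ε g v v') : Pair φ ε g v' (ε • v) := by
  have e : EE φ ε v' (ε • v) = -EE φ ε v v' := by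
    rw [map_smul, L.EE_swap, smul_smul, mul_neg, L.sq, neg_smul, one_smul]
  refine ⟨?_, P.h0', by simp [P.h0], fun Z hZ => ?_, fun U hU u hu => ?_, fun U hU u hu => ?_⟩
  · rw [map_smul, LinearMap.smul_apply, L.sym, P.h1, mul_one, smul_eq_mul, L.sq]
  · rw [e]
    convert g.neg_mem (P.norm Z hZ) using 1
    noncomm_ring
  · rw [map_smul, LinearMap.smul_apply, smul_assoc]
    exact U.smul_mem _ (P.st' U hU u hu)
  · rw [smul_comm]
    exact U.smul_mem _ (P.st U hU u hu)

theorem Pair.br_left (L : LieData φ ε g) (P : Pair φ ε g v v') {Z : End K V}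
    (hZ : Z ∈ g ⊔ K ∙ EE φ ε v v') {Y : End K V} (hY : Y ∈ g ⊔ K ∙ EE φ ε v v') :
    Z * Y - Y * Z ∈ g := by
  obtain ⟨Z1, h1, _, h2, rfl⟩ := Submodule.mem_sup.1 hZ
  obtain ⟨a, rfl⟩ := Submodule.mem_span_singleton.1 h2
  obtain ⟨Y1, h3, _, h4, rfl⟩ := Submodule.mem_sup.1 hY
  obtain ⟨b, rfl⟩ := Submodule.mem_span_singleton.1 h4
  convert g.add_mem (L.br _ h1 _ h3) (g.sub_mem (g.smul_mem a (P.norm _ h3))
    (g.smul_mem b (P.norm _ h1))) using 1
  simp only [mul_add, add_mul, smul_mul_assoc, mul_smul_comm]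
  module

theorem Pair.half (L : LieData φ ε g) (P : Pair φ ε g v v') {u : V} (hu : u ∈ gen (g : Set (End K V)) v) :
    EE φ ε u v' ∈ g ⊔ K ∙ EE φ ε v v' := by
  let p : Set (End K V) := {Y | Y ∈ g ∧ ∃ t : K, Y v' = t • v'}
  have hQ : gen p v ≤ (g ⊔ K ∙ EE φ ε v v').comap ((EE φ ε).flip v') := by
    refine gen_le (Submodule.mem_sup_right (Submodule.mem_span_singleton_self _)) ?_
    rintro Y ⟨hY, t, ht⟩ u hu
    obtain ⟨s, hs⟩ := L.iso Y hY
    have h1 := P.br_left L (Submodule.mem_sup_left hY) hu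
    rw [LinearMap.flip_apply, br_EE hs, ht, map_smul] at h1
    have h2 := Submodule.add_mem _ (Submodule.mem_sup_left h1) (Submodule.smul_mem _ (s - t) hu)
    rw [LinearMap.flip_apply] at h2
    rw [Submodule.mem_comap, LinearMap.flip_apply]
    convert h2 using 1
    module
  let T : Submodule K V := gen p v ⊓ ⨅ Z ∈ g, (gen p v).comap Z
  have hT : ∀ u, u ∈ T ↔ u ∈ gen p v ∧ ∀ Z ∈ g, Z u ∈ gen p v := fun u => by
    simp [T]
  have h1 : gen p v ≤ T := by
    refine gen_le ((hT v).2 ⟨mem_gen _ _, fun Z hZ => ?_⟩) fun Y hY u hu => (hT _).2 ?_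
    · have a1 := P.norm Z hZ
      have a2 := P.norm _ (P.norm _ a1)
      have a3 := g.add_mem (g.sub_mem a2 (g.smul_mem 7 a1)) (g.smul_mem 6 hZ)
      have Hv : EE φ ε v v' v = v := by simp [EE_apply, P.h1, P.h0]
      have Hv' : EE φ ε v v' v' = -v' := by
        rw [EE_apply, P.h0', L.sym v v', P.h1, ← mul_assoc, L.sq]
        simp
      have Hw := EE_apply φ ε v v' (Z v)
      have Hw' := EE_apply φ ε v v' (Z v')
      generalize EE φ ε v v' = H at *
      have a4 := gen_stab p v _ ⟨a3, 6 * (ε * φ v (Z v')), by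
        simp only [LinearMap.sub_apply, LinearMap.add_apply, LinearMap.smul_apply, End.mul_apply,
          map_sub, map_smul, map_neg, Hv, Hv', Hw']
        module⟩ v (mem_gen _ _)
      convert Submodule.smul_mem _ (1 / 12 : K) (Submodule.add_mem _ a4
        (Submodule.smul_mem _ (6 * φ v' (Z v)) (mem_gen p v))) using 1
      simp only [LinearMap.sub_apply, LinearMap.add_apply, LinearMap.smul_apply, End.mul_apply,
        map_sub, map_smul, map_neg, Hv, Hv', Hw]
      module
    · obtain ⟨b1, b2⟩ := (hT u).1 hu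
      refine ⟨gen_stab p v Y hY u b1, fun Z hZ => ?_⟩
      convert Submodule.add_mem _ (b2 _ (L.br Z hZ Y hY.1)) (gen_stab p v Y hY _ (b2 Z hZ))
      simp
  exact hQ (gen_le (mem_gen _ _) (fun Z hZ u hu => ((hT u).1 (h1 hu)).2 Z hZ) hu)

theorem Pair.mem_of_ne (P : Pair φ ε g v v') {U : Submodule K V} (hU : Stab (g : Set (End K V)) U) {u : V}
    (hu : u ∈ U) (h : φ v' u ≠ 0) : v ∈ U := (U.smul_mem_iff h).1 (P.st U hU u hu)

theorem gen_smul (L : LieData φ ε g) (v : V) : gen (g : Set (End K V)) (ε • v) = gen (g : Set (End K V)) v :=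
  le_antisymm (gen_le (Submodule.smul_mem _ _ (mem_gen _ _)) (gen_stab _ _))
    (gen_le ((Submodule.smul_mem_iff _ L.ne).1 (mem_gen _ _)) (gen_stab _ _))

theorem Pair.full (L : LieData φ ε g) (P : Pair φ ε g v v') {u w : V} (hu : u ∈ gen (g : Set (End K V)) v)
    (hw : w ∈ gen (g : Set (End K V)) v') : EE φ ε u w ∈ g ⊔ K ∙ EE φ ε v v' := by
  have hs : ∀ w ∈ gen (g : Set (End K V)) v', EE φ ε v w ∈ g ⊔ K ∙ EE φ ε v v' := by
    intro w hw
    have h1 := (P.symm L).half L hw
    rw [map_smul, map_smul, L.EE_swap v w, L.EE_swap v v', smul_smul, smul_smul, mul_neg, L.sq,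
      Submodule.span_singleton_smul_eq (by simp)] at h1
    exact (Submodule.smul_mem_iff _ (by simp)).1 h1
  have h1 := P.br_left L (P.half L hu) (hs w hw)
  rw [br_EE (L.EE_iso u v'), EE_apply, EE_apply, P.h1] at h1
  have h2 : φ u v • EE φ ε v' w ∈ g ⊔ K ∙ EE φ ε v v' := by
    by_cases c : φ u v = 0
    · simp [c]
    · have : v' ∈ gen (g : Set (End K V)) v := (P.symm L).mem_of_ne (gen_stab _ _) hu (by
        rw [map_smul, LinearMap.smul_apply, smul_eq_mul, ← L.sym]
        exact c)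
      rw [L.EE_swap w v']
      exact Submodule.smul_mem _ _ (Submodule.smul_mem _ _
        (P.half L (gen_le this (gen_stab _ _) hw)))
  have h3 : φ v' w • EE φ ε v u ∈ g ⊔ K ∙ EE φ ε v v' := by
    by_cases c : φ v' w = 0
    · simp [c]
    · exact Submodule.smul_mem _ _
        (hs u (gen_le (P.mem_of_ne (gen_stab _ _) hw c) (gen_stab _ _) hu))
  have h4 : EE φ ε v v' ∈ g ⊔ K ∙ EE φ ε v v' := hs v' (mem_gen _ _)
  convert Submodule.add_mem _ (Submodule.sub_mem _ (Submodule.add_mem _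
    (Submodule.mem_sup_left h1) (Submodule.smul_mem _ ε h2)) h3)
    (Submodule.smul_mem _ (ε * φ u w) h4) using 1
  simp only [map_sub, map_smul, LinearMap.sub_apply, LinearMap.smul_apply]
  module

theorem Pair.orth (L : LieData φ ε g) (P : Pair φ ε g v v') {U : Submodule K V} (hU : Stab (g : Set (End K V)) U)
    (hv : v ∉ U) {w : V} (hw : w ∈ gen (g : Set (End K V)) v') : ∀ u ∈ U, φ w u = 0 := by
  have hm : ∀ w, w ∈ (⨅ u ∈ U, LinearMap.ker (φ.flip u) : Submodule K V) ↔ ∀ u ∈ U, φ w u = 0 :=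
    fun w => by simp
  refine (hm w).1 (gen_le ((hm _).2 fun u hu => ?_) (fun Z hZ a ha => (hm _).2 fun u hu => ?_) hw)
  · by_contra c
    exact hv (P.mem_of_ne hU hu c)
  · obtain ⟨s, hs⟩ := L.iso Z hZ
    have := hs a u
    rwa [(hm a).1 ha u hu, (hm a).1 ha _ (hU Z hZ u hu), add_zero, mul_zero] at this

variable [FiniteDimensional K V] {Γ : Type} [Group Γ] {r : Γ →* End K V}

theorem Pair.gen_stable (P : Pair φ ε g v v') (ad : ∀ γ, ∀ Z ∈ g, r γ * Z * r γ⁻¹ ∈ g)
    (conn : ∀ H : Subgroup Γ, H.FiniteIndex → ∀ U, Stab (r '' H) U → Stab (Set.range r) U) :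
    Stab (Set.range r) (gen (g : Set (End K V)) v) := by
  have hr : ∀ γ δ a, r γ (r δ a) = r (γ * δ) a := fun γ δ a => by rw [map_mul]; rfl
  have hm : ∀ γ δ (U : Submodule K V), (U.map (r δ)).map (r γ) = U.map (r (γ * δ)) :=
    fun γ δ U => by rw [← Submodule.map_comp, map_mul]; rfl
  let H : Subgroup Γ :=
    { carrier := {δ | (gen (g : Set (End K V)) v).map (r δ) = gen (g : Set (End K V)) v}
      one_mem' := by simp [End.one_eq_id]
      mul_mem' := fun {a b} ha hb => by
        change _ = _ at ha hb ⊢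
        rw [← hm, hb, ha]
      inv_mem' := fun {a} ha => by
        change _ = _ at ha ⊢
        conv_lhs => rw [← ha]
        simp [hm, End.one_eq_id] }
  have h1 : ∀ δ, φ v' (r δ v) ≠ 0 → δ ∈ H := by
    intro δ hδ
    refine (Submodule.eq_of_le_of_finrank_le (gen_le ?_ ?_) (Submodule.finrank_map_le _ _)).symm
    rotate_left
    · rintro Z hZ _ ⟨u, hu, rfl⟩
      refine ⟨_, gen_stab _ _ _ (ad δ⁻¹ Z hZ) u hu, ?_⟩
      simp [hr]
    refine P.mem_of_ne ?_ (Submodule.mem_map_of_mem (mem_gen _ _)) hδ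
    rintro Z hZ _ ⟨u, hu, rfl⟩
    refine ⟨_, gen_stab _ _ _ (ad δ⁻¹ Z hZ) u hu, ?_⟩
    simp [hr]
  have li := LinearIndependent.of_pairwise_dual_eq_zero_one (R := K)
    (fun q : Γ ⧸ H => r q.out v) (fun q => φ v' ∘ₗ r q.out⁻¹) (fun a b hab => by
      by_contra c
      simp only [LinearMap.comp_apply, hr] at c
      exact hab (by rw [← a.out_eq', ← b.out_eq', QuotientGroup.eq]; exact h1 _ c))
    (fun a => by simp [hr, P.h1])
  have := li.finite
  refine conn H Subgroup.finiteIndex_of_finite_quotient _ ?_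
  rintro _ ⟨δ, hδ, rfl⟩ u hu
  exact (show _ = _ from hδ) ▸ Submodule.mem_map_of_mem hu

theorem global_mem (L : LieData φ ε g) (G : V → V → Prop) (hG : ∀ v v', G v v' → Pair φ ε g v v')
    (ad : ∀ γ, ∀ Z ∈ g, r γ * Z * r γ⁻¹ ∈ g)
    (sim : ∀ γ, ∃ c, ∀ a b, φ (r γ a) (r γ b) = c * φ a b)
    (conn : ∀ H : Subgroup Γ, H.FiniteIndex → ∀ U, Stab (r '' H) U → Stab (Set.range r) U)
    (ss : ∀ U, Stab (Set.range r) U → ∃ U', IsCompl U U' ∧ Stab (Set.range r) U')
    (sg : ∀ U, Stab (Set.range r) U → Stab (g : Set (End K V)) U)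
    (good : ∀ U, Stab (Set.range r) U → U ≠ ⊥ → ∃ v v', G v v' ∧ v ∈ U)
    (X : End K V) (h1 : ∀ a b, φ (X a) b + φ a (X b) = 0)
    (h2 : ∀ U, Stab (Set.range r) U → ∀ u ∈ U, X u ∈ U) :
    X ∈ g ⊔ Submodule.span K {Z | ∃ v v', G v v' ∧ Z = EE φ ε v v'} := by
  let R : Submodule K (End K V) := Submodule.span K
    {Z | ∃ v v' u w, G v v' ∧ u ∈ gen (g : Set (End K V)) v ∧ w ∈ gen (g : Set (End K V)) v' ∧ Z = (φ w).smulRight u}
  let t : Submodule K (End K V) := Submodule.span K {Z | ∃ v v', G v v' ∧ Z = EE φ ε v v'}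
  have hW : ∀ v v', G v v' → Stab (Set.range r) (gen (g : Set (End K V)) v) := fun v v' h =>
    (hG v v' h).gen_stable ad conn
  have hW' : ∀ v v', G v v' → Stab (Set.range r) (gen (g : Set (End K V)) v') := fun v v' h =>
    ((hG v v' h).symm L).gen_stable ad conn
  have hρ : ∀ v v', G v v' → ∃ ρ ∈ R, (∀ u ∈ gen (g : Set (End K V)) v, ρ u = u) ∧
      ∀ U, Stab (g : Set (End K V)) U → v ∉ U → ∀ u ∈ U, ρ u = 0 := by
    intro v v' h
    have P := hG v v' h
    have hm : ∀ u, u ∈ (gen (g : Set (End K V)) v ⊓ ⨅ w ∈ gen (g : Set (End K V)) v', LinearMap.ker (φ w) : Submodule K V) ↔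
        u ∈ gen (g : Set (End K V)) v ∧ ∀ w ∈ gen (g : Set (End K V)) v', φ w u = 0 := fun u => by simp
    obtain ⟨U, hU, hU'⟩ := ss (gen (g : Set (End K V)) v ⊓ ⨅ w ∈ gen (g : Set (End K V)) v', LinearMap.ker (φ w)) (by
      rintro _ ⟨γ, rfl⟩ u hu
      obtain ⟨h1, h2⟩ := (hm u).1 hu
      refine (hm _).2 ⟨hW v v' h _ ⟨γ, rfl⟩ u h1, fun w hw => ?_⟩
      obtain ⟨c, hc⟩ := sim γ
      have := hc (r γ⁻¹ w) u
      rwa [h2 _ (hW' v v' h _ ⟨γ⁻¹, rfl⟩ w hw), mul_zero, ← End.mul_apply, ← map_mul,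
        mul_inv_cancel, map_one, End.one_apply] at this)
    have hv : v ∈ U := by
      obtain ⟨a, ha, b, hb, e⟩ := Submodule.mem_sup.1 (hU.sup_eq_top ▸ Submodule.mem_top (x := v))
      refine P.mem_of_ne (sg U hU') hb ?_
      have := P.h1
      rw [← e, map_add, ((hm a).1 ha).2 _ (mem_gen _ _), zero_add] at this
      rw [this]
      exact one_ne_zero
    have hs : Function.Surjective (φ.domRestrict₁₂ (gen (g : Set (End K V)) v') (gen (g : Set (End K V)) v)) := by
      refine LinearMap.flip_injective_iff₁.1 ((injective_iff_map_eq_zero _).2 fun u hu => ?_)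
      refine Subtype.ext (Submodule.disjoint_def.1 hU.disjoint _ ((hm _).2 ⟨u.2, fun w hw => ?_⟩)
        (gen_le hv (sg U hU') u.2))
      exact LinearMap.congr_fun hu ⟨w, hw⟩
    let b := finBasis K (gen (g : Set (End K V)) v)
    choose w hw using fun i => hs (b.coord i)
    refine ⟨∑ i, (φ (w i)).smulRight (b i : V), Submodule.sum_mem _ fun i _ =>
      Submodule.subset_span ⟨v, v', _, _, h, (b i).2, (w i).2, rfl⟩, fun u hu => ?_,
      fun U h1 h2 u hu => ?_⟩
    · have := congrArg Subtype.val (b.sum_repr ⟨u, hu⟩)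
      rw [Submodule.coe_sum] at this
      rw [LinearMap.sum_apply]
      refine Eq.trans (Finset.sum_congr rfl fun i _ => ?_) this
      rw [LinearMap.smulRight_apply, Submodule.coe_smul]
      exact congrArg (· • (b i : V)) (LinearMap.congr_fun (hw i) ⟨u, hu⟩)
    · rw [LinearMap.sum_apply]
      exact Finset.sum_eq_zero fun i _ => by
        rw [LinearMap.smulRight_apply, P.orth L h1 h2 (w i).2 u hu, zero_smul]
  have hone : (1 : End K V) ∈ R := by
    obtain ⟨U, ⟨h1, ρ, h2, h3, h4⟩, hmax⟩ := set_has_maximal_iff_noetherian.2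
      (inferInstance : IsNoetherian K V) {U | Stab (Set.range r) U ∧ ∃ ρ ∈ R, (∀ u ∈ U, ρ u = u) ∧
        ∀ U', Stab (g : Set (End K V)) U' → Disjoint U U' → ∀ u ∈ U', ρ u = 0}
      ⟨⊥, fun Z _ u hu => by simp [(Submodule.mem_bot K).1 hu], 0, R.zero_mem,
        fun u hu => by simp [(Submodule.mem_bot K).1 hu], fun _ _ _ _ _ => rfl⟩
    obtain ⟨U', h5, h6⟩ := ss U h1
    by_cases c : U' = ⊥
    · have : U = ⊤ := by simpa [c] using h5.sup_eq_top
      convert h2
      ext u
      exact (h3 u (this ▸ Submodule.mem_top)).symm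
    obtain ⟨v, v', h, hv⟩ := good U' h6 c
    obtain ⟨σ, h7, h8, h9⟩ := hρ v v' h
    have hv0 : v ≠ 0 := fun e => by simpa [e] using (hG v v' h).h1
    have hvU : v ∉ U := fun e => hv0 (Submodule.disjoint_def.1 h5.disjoint v e hv)
    have hlt : U < U ⊔ gen (g : Set (End K V)) v :=
      left_lt_sup.2 fun e => hvU (e (mem_gen _ v))
    refine absurd hlt (hmax (U ⊔ gen (g : Set (End K V)) v) ⟨fun Z hZ u hu => ?_, ρ + σ, R.add_mem h2 h7,
        fun u hu => ?_, fun U2 a1 a2 u hu => ?_⟩)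
    · obtain ⟨a, ha, b, hb, rfl⟩ := Submodule.mem_sup.1 hu
      rw [map_add]
      exact Submodule.add_mem_sup (h1 Z hZ a ha) (hW v v' h Z hZ b hb)
    · obtain ⟨a, ha, b, hb, rfl⟩ := Submodule.mem_sup.1 hu
      simp [h3 a ha, h8 b hb, h9 U (sg U h1) hvU a ha, h4 _ (gen_stab _ _)
        (h5.disjoint.mono_right (gen_le hv (sg U' h6))) b hb]
    · rw [LinearMap.add_apply, h4 U2 a1 (a2.mono_left le_sup_left) u hu, h9 U2 a1 (fun e => hv0
        (Submodule.disjoint_def.1 a2 v (Submodule.mem_sup_right (mem_gen (g : Set (End K V)) v)) e)) u hu, add_zero]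
  have hE : ∀ Z ∈ R, ∃ Z' ∈ g ⊔ t, ∀ a b, φ (Z' a) b = φ (Z a) b - φ a (Z b) := by
    intro Z hZ
    induction hZ using Submodule.span_induction with
    | mem Z hZ =>
      obtain ⟨v, v', u, w, h, hu, hw, rfl⟩ := hZ
      refine ⟨EE φ ε u w, sup_le_sup_left ((Submodule.span_singleton_le_iff_mem _ t).2
        (Submodule.subset_span ⟨v, v', h, rfl⟩)) g ((hG v v' h).full L hu hw), fun a b => ?_⟩
      simp only [EE_apply, map_sub, map_smul, LinearMap.sub_apply, LinearMap.smul_apply,
        smul_eq_mul, LinearMap.smulRight_apply]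
      rw [L.sym a u]
      ring
    | zero => exact ⟨0, Submodule.zero_mem _, by simp⟩
    | add Z1 Z2 _ _ h1 h2 =>
      obtain ⟨A, hA, e1⟩ := h1
      obtain ⟨B, hB, e2⟩ := h2
      exact ⟨A + B, Submodule.add_mem _ hA hB, fun a b => by simp [e1, e2]; ring⟩
    | smul c Z _ h1 =>
      obtain ⟨A, hA, e1⟩ := h1
      exact ⟨c • A, Submodule.smul_mem _ _ hA, fun a b => by simp [e1]; ring⟩
  have h3 : R ≤ R.comap (LinearMap.mulLeft K X) := by
    refine Submodule.span_le.2 ?_
    rintro _ ⟨v, v', u, w, h, hu, hw, rfl⟩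
    exact Submodule.subset_span ⟨v, v', X u, w, h, h2 _ (hW v v' h) u hu, hw, by ext; simp⟩
  obtain ⟨Z, hZ, e⟩ := hE X (by simpa using h3 hone)
  convert Submodule.smul_mem _ (1 / 2 : K) hZ
  ext a
  refine sub_eq_zero.1 (L.nd _ fun b => ?_)
  simp only [map_sub, map_smul, LinearMap.sub_apply, LinearMap.smul_apply, e, smul_eq_mul]
  linear_combination (1 / 2 : K) * h1 a b

theorem br_mem (L : LieData φ ε g) (G : V → V → Prop) (hG : ∀ v v', G v v' → Pair φ ε g v v')
    (comm : ∀ v v' w w', G v v' → G w w' → Commute (EE φ ε v v') (EE φ ε w w')) {X Y : End K V}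
    (hX : X ∈ g ⊔ Submodule.span K {Z | ∃ v v', G v v' ∧ Z = EE φ ε v v'})
    (hY : Y ∈ g ⊔ Submodule.span K {Z | ∃ v v', G v v' ∧ Z = EE φ ε v v'}) :
    X * Y - Y * X ∈ g := by
  let t : Submodule K (End K V) := Submodule.span K {Z | ∃ v v', G v v' ∧ Z = EE φ ε v v'}
  have ht : ∀ A ∈ t, (∀ Z ∈ g, A * Z - Z * A ∈ g) ∧ ∀ B ∈ t, Commute A B := by
    intro A hA
    induction hA using Submodule.span_induction with
    | mem A hA =>
      obtain ⟨v, v', h, rfl⟩ := hA
      refine ⟨(hG v v' h).norm, fun B hB => ?_⟩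
      induction hB using Submodule.span_induction with
      | mem B hB =>
        obtain ⟨w, w', h', rfl⟩ := hB
        exact comm _ _ _ _ h h'
      | zero => exact Commute.zero_right _
      | add _ _ _ _ h1 h2 => exact h1.add_right h2
      | smul c _ _ h1 => exact h1.smul_right c
    | zero => exact ⟨fun Z _ => by simp, fun B _ => Commute.zero_left _⟩
    | add A B _ _ h1 h2 =>
      refine ⟨fun Z hZ => ?_, fun C hC => (h1.2 C hC).add_left (h2.2 C hC)⟩
      convert g.add_mem (h1.1 Z hZ) (h2.1 Z hZ) using 1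
      noncomm_ring
    | smul c A _ h1 =>
      refine ⟨fun Z hZ => ?_, fun C hC => (h1.2 C hC).smul_left c⟩
      convert g.smul_mem c (h1.1 Z hZ) using 1
      rw [smul_sub, smul_mul_assoc, mul_smul_comm]
  obtain ⟨X1, a1, X2, a2, rfl⟩ := Submodule.mem_sup.1 hX
  obtain ⟨Y1, b1, Y2, b2, rfl⟩ := Submodule.mem_sup.1 hY
  convert g.add_mem (L.br _ a1 _ b1) (g.sub_mem ((ht _ a2).1 _ b1) ((ht _ b2).1 _ a1)) using 1
  have := ((ht _ a2).2 _ b2).eq
  simp only [mul_add, add_mul, this]
  abel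

end Pool.Agent.Lib.MP_d61fbb_ag
end

-- part Pool.Agent.Lib.MP_d61fbb_ag.Frob
section

/-!
An isolated eigenvalue of a diagonalisable similitude produces a hyperbolic pair.
-/

set_option autoImplicit false
set_option linter.unusedSectionVars false

namespace Pool.Agent.Lib.MP_d61fbb_ag

open Module Polynomial

variable {K V : Type} [Field K] [CharZero K] [AddCommGroup V] [Module K V]

theorem sum_smul_mem {ι : Type} (T : End K V) (q : Submodule K V) (hq : ∀ u ∈ q, T u ∈ q)
    (s : Finset ι) (z : ι → V) (t k : ι → K) (hz : ∀ i ∈ s, T (z i) = t i • z i)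
    (hk : ∀ i ∈ s, ∀ j ∈ s, t i = t j → k i = k j) (h : ∑ i ∈ s, z i ∈ q) :
    ∑ i ∈ s, k i • z i ∈ q := by
  classical
  let k' : K → K := fun y => if h : ∃ i ∈ s, t i = y then k h.choose else 0
  convert aeval_apply_smul_mem_of_le_comap h (Lagrange.interpolate (s.image t) id k') T hq
  rw [map_sum]
  refine Finset.sum_congr rfl fun i hi => ?_
  have h1 : ∃ j ∈ s, t j = t i := ⟨i, hi, rfl⟩
  have h2 := Lagrange.eval_interpolate_at_node (s := s.image t) (v := id) k' (Set.injOn_id _)
    (Finset.mem_image_of_mem t hi)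
  rw [End.aeval_apply_of_mem_apply_eq_smul (hz i hi)]
  rw [id] at h2
  rw [h2]
  simp only [k', dif_pos h1]
  rw [hk _ h1.choose_spec.1 i hi h1.choose_spec.2]

theorem exists_log {y z : Kˣ} (h : ∀ N : ℕ, 0 < N → y ^ N ≠ z ^ N) :
    ∃ l : Additive Kˣ →+ K, l (Additive.ofMul y) ≠ l (Additive.ofMul z) := by
  have h1 : ¬ IsOfFinOrder (y / z) := fun e => by
    obtain ⟨N, hN, e⟩ := isOfFinOrder_iff_pow_eq_one.1 e
    exact h N hN (by rwa [div_pow, div_eq_one] at e)
  obtain ⟨l, hl⟩ := (Module.Baer.of_divisible K).extension_property_addMonoidHom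
    (zmultiplesHom _ (Additive.ofMul (y / z))) (injective_zpow_iff_not_isOfFinOrder.2 h1)
    (Int.castAddHom K)
  refine ⟨l, fun e => ?_⟩
  have := DFunLike.congr_fun hl 1
  simp [ofMul_div, e] at this

/-- Unit eigenvalues. -/
def Ev (F : End K V) (y : Kˣ) : Prop := ∃ w, w ≠ 0 ∧ F w = (y : K) • w

/-- Diagonalisable with nonzero eigenvalues. -/
def Diag (F : End K V) : Prop := Submodule.span K {w | ∃ y : Kˣ, F w = (y : K) • w} = ⊤

theorem Diag.ext {F : End K V} (hF : Diag F) {W : Type} [AddCommGroup W] [Module K W]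
    {A B : V →ₗ[K] W} (h : ∀ (y : Kˣ) w, Ev F y → F w = (y : K) • w → A w = B w) : A = B :=
  LinearMap.ext_on hF fun w ⟨y, hy⟩ => by
    by_cases c : w = 0
    · simp [c]
    · exact h y w ⟨w, c, hy⟩ hy

variable [FiniteDimensional K V]

open Classical in
theorem Diag.proj {F : End K V} (hF : Diag F) : ∃ (s : Finset Kˣ) (π : Kˣ → End K V),
    (∀ y, y ∈ s ↔ Ev F y) ∧ (∑ y ∈ s, π y = 1) ∧
    ∀ A : End K V, ∀ a : Kˣ → K, (∀ (y : Kˣ) w, F w = (y : K) • w → A w = a y • w) →
      ∀ y ∈ s, A * π y = a y • π y ∧ π y * A = a y • π y := by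
  have hfin : {y | Ev F y}.Finite :=
    (F.finite_hasEigenvalue.preimage Units.val_injective.injOn).subset fun y ⟨w, h0, hw⟩ =>
      End.hasEigenvalue_of_hasEigenvector ⟨End.mem_eigenspace_iff.2 hw, h0⟩
  have key : ∀ y ∈ hfin.toFinset, ∀ (z : Kˣ) w, Ev F z → F w = (z : K) • w →
      aeval F (Lagrange.basis hfin.toFinset Units.val y) w = if y = z then w else 0 := by
    intro y hy z w hz hw
    rw [End.aeval_apply_of_mem_apply_eq_smul hw]
    split_ifs with c
    · rw [← c, Lagrange.eval_basis_self Units.val_injective.injOn hy, one_smul]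
    · rw [Lagrange.eval_basis_of_ne c (hfin.mem_toFinset.2 hz), zero_smul]
  refine ⟨hfin.toFinset, fun y => aeval F (Lagrange.basis hfin.toFinset Units.val y),
    fun y => hfin.mem_toFinset, hF.ext fun z w hz hw => ?_, fun A a hA y hy =>
      ⟨hF.ext fun z w hz hw => ?_, hF.ext fun z w hz hw => ?_⟩⟩
  · rw [LinearMap.sum_apply, Finset.sum_congr rfl fun y hy => key y hy z w hz hw]
    simp [hz]
  · rw [End.mul_apply, LinearMap.smul_apply, key y hy z w hz hw]
    split_ifs with c
    · rw [hA z w hw, c]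
    · simp
  · rw [End.mul_apply, LinearMap.smul_apply, hA z w hw, map_smul, key y hy z w hz hw]
    split_ifs with c
    · rw [c]
    · simp

theorem kappa_rel {G : Type} [CommGroup G] [DecidableEq G] (E : G → Prop) {x x' c : G}
    (hx : x' * x = c) (hxx : x * x ≠ c) (hd : ∀ y, E y → E (c / y))
    (h : ∀ y z u, E y → E z → E u → x * y = z * u → z = x ∨ u = x ∨ x * y = c) (κ : G → K)
    (hκ : ∀ y, κ y = (if y = x then 1 else 0) - (if y = x' then 1 else 0))
    {a b d e : G} (ha : E a) (hb : E b) (hd' : E d) (he : E e) (habde : a * b = d * e) :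
    κ a + κ b = κ d + κ e := by
  have hD : ∀ d e, d * e = c → κ d + κ e = 0 := by
    intro d e hde
    have e1 : d = x ↔ e = x' := ⟨fun t => mul_left_cancel (a := x) (by rw [← t, hde, t, ← hx,
      mul_comm]), fun t => mul_left_cancel (a := x') (by rw [← t, mul_comm, hde, t, hx])⟩
    have e2 : e = x ↔ d = x' := ⟨fun t => mul_left_cancel (a := x) (by rw [← t, mul_comm, hde, t,
      ← hx, mul_comm]), fun t => mul_left_cancel (a := x') (by rw [← t, hde, t, hx])⟩
    simp only [hκ, e1, e2]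
    ring
  have h' : ∀ y z u, E y → E z → E u → x' * y = z * u → z = x' ∨ u = x' ∨ x' * y = c := by
    intro y z u hy hz hu e
    have e1 : ∀ t, c / t = x → t = x' := fun t ht => by
      rw [div_eq_iff_eq_mul, ← hx, mul_comm] at ht
      exact (mul_left_cancel ht).symm
    rcases h _ _ _ (hd y hy) (hd z hz) (hd u hu) (by
      rw [div_mul_div_comm, ← e, ← div_mul_div_comm, ← hx, mul_div_cancel_left]) with t | t | t
    · exact Or.inl (e1 z t)
    · exact Or.inr (Or.inl (e1 u t))
    · refine Or.inr (Or.inr ?_)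
      rw [← mul_div_assoc, mul_comm, div_eq_iff_eq_mul] at t
      rw [← mul_left_cancel t, hx]
  have hA : ∀ a b d e, (a = x ∨ a = x') → E b → E d → E e → a * b = d * e →
      κ a + κ b = κ d + κ e := by
    intro a b d e h1 hb hd he h2
    have : d = a ∨ e = a ∨ a * b = c := by
      rcases h1 with rfl | rfl
      · exact h b d e hb hd he h2
      · exact h' b d e hb hd he h2
    rcases this with rfl | rfl | t
    · rw [mul_left_cancel h2]
    · rw [mul_comm d] at h2
      rw [mul_left_cancel h2, add_comm]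
    · rw [hD a b t, hD d e (h2 ▸ t)]
  by_cases c1 : a = x ∨ a = x'
  · exact hA a b d e c1 hb hd' he habde
  by_cases c2 : b = x ∨ b = x'
  · rw [add_comm, hA b a d e c2 ha hd' he (by rw [mul_comm, habde])]
  by_cases c3 : d = x ∨ d = x'
  · exact (hA d e a b c3 he ha hb habde.symm).symm
  by_cases c4 : e = x ∨ e = x'
  · rw [add_comm (κ d), hA e d a b c4 hd' ha hb (by rw [mul_comm, habde])]
  push Not at c1 c2 c3 c4
  simp [hκ, c1, c2, c3, c4]

variable {φ : V →ₗ[K] V →ₗ[K] K} {ε : K} {g : Submodule K (End K V)}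

open Classical in
theorem pair_of_isolated (L : LieData φ ε g) {F F' : End K V} (hF : Diag F) (hFF : F * F' = 1)
    {c : K} (hc : ∀ a b, φ (F a) (F b) = c * φ a b) (ad : ∀ Z ∈ g, F * Z * F' ∈ g)
    (hlog : ∀ l : Additive Kˣ →+ K, ∃ h ∈ g, ∀ (y : Kˣ) w, F w = (y : K) • w →
      h w = l (Additive.ofMul y) • w)
    {v : V} (hv : v ≠ 0) {x : Kˣ} (h1 : ∀ w, F w = (x : K) • w ↔ ∃ t : K, w = t • v)
    (h2 : (x : K) * x ≠ c) (h3 : ∀ y, Ev F y → ∀ N : ℕ, 0 < N → y ^ N = x ^ N → y = x)
    (h4 : ∀ y z u, Ev F y → Ev F z → Ev F u → x * y = z * u → z = x ∨ u = x ∨ (x : K) * y = c) :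
    ∃ v', Pair φ ε g v v' ∧ ∃ x' : Kˣ, (x' : K) * x = c ∧ ∀ (y : Kˣ) w, F w = (y : K) • w →
      EE φ ε v v' w = ((if y = x then 1 else 0) - (if y = x' then 1 else 0) : K) • w := by
  have E0 : ∀ (α β : Kˣ) a b, F a = (α : K) • a → F b = (β : K) • b → φ a b ≠ 0 →
      (α : K) * β = c := by
    intro α β a b ha hb h
    have := hc a b
    rw [ha, hb, map_smul, map_smul, LinearMap.smul_apply, smul_eq_mul, smul_eq_mul] at this
    exact mul_right_cancel₀ h (by linear_combination this)
  have E1 : ∀ a, a ≠ 0 → ∃ (β : Kˣ) (b : V), F b = (β : K) • b ∧ φ b a = 1 := by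
    intro a ha
    by_contra hn
    push Not at hn
    refine ha (L.nd a fun b => ?_)
    rw [L.sym]
    refine mul_eq_zero_of_right _ (LinearMap.congr_fun (hF.ext (A := φ.flip a) (B := 0)
      fun y w _ hw => ?_) b)
    by_contra c0
    refine hn y ((φ w a)⁻¹ • w) (by rw [map_smul, hw, smul_comm]) ?_
    rw [map_smul, LinearMap.smul_apply, smul_eq_mul]
    exact inv_mul_cancel₀ c0
  have hx : F v = (x : K) • v := (h1 v).2 ⟨1, (one_smul _ _).symm⟩
  obtain ⟨x', v', hx', hv'⟩ := E1 v hv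
  have hxc := E0 _ _ _ _ hx' hx (by simp [hv'])
  have hd : ∀ y, Ev F y → Ev F (x' * x / y) := by
    rintro y ⟨w, h0, hw⟩
    obtain ⟨β, b, hb, e⟩ := E1 w h0
    have e2 : β * y = x' * x := Units.ext ((E0 _ _ _ _ hb hw (by simp [e])).trans hxc.symm)
    exact ⟨b, fun t => by simp [t] at e, by rw [← e2, mul_div_cancel_right, hb]⟩
  have hne : x' ≠ x := fun e => h2 (e ▸ hxc)
  have he : ∀ (y : Kˣ) w, F w = (y : K) • w → φ v' w • v = (if y = x then (1 : K) else 0) • w := by
    intro y w hw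
    split_ifs with t
    · obtain ⟨a, rfl⟩ := (h1 w).1 (t ▸ hw)
      simp [hv']
    · rw [zero_smul, smul_eq_zero]
      by_contra c0
      exact t (mul_left_cancel (Units.ext ((E0 _ _ _ _ hx' hw (not_or.1 c0).1).trans hxc.symm)))
  have he' : ∀ (y : Kˣ) w, F w = (y : K) • w →
      (ε * φ v w) • v' = (if y = x' then (1 : K) else 0) • w := by
    intro y w hw
    split_ifs with t
    · refine sub_eq_zero.1 (L.nd _ fun b => LinearMap.congr_fun (hF.ext (B := 0)
        fun z u _ hu => ?_) b)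
      by_cases t2 : z = x
      · obtain ⟨a, rfl⟩ := (h1 u).1 (t2 ▸ hu)
        simp [hv', L.sym w v]
      · by_contra c0
        refine t2 (mul_left_cancel (a := x') (Units.ext ((E0 x' z _ u ?_ hu c0).trans hxc.symm)))
        rw [map_sub, map_smul, map_smul, hx', hw, t]
        module
    · by_cases c0 : φ v w = 0
      · simp [c0]
      · exact absurd (mul_right_cancel (b := x) (Units.ext (by
          rw [Units.val_mul, mul_comm, E0 _ _ _ _ hx hw c0, Units.val_mul, hxc]))) t
  let κ : Kˣ → K := fun y => (if y = x then 1 else 0) - (if y = x' then 1 else 0)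
  have hκ : ∀ (y : Kˣ) w, F w = (y : K) • w → EE φ ε v v' w = κ y • w := fun y w hw => by
    rw [EE_apply, he y w hw, he' y w hw, sub_smul]
  obtain ⟨s, π, hs, hπ1, hπ⟩ := hF.proj
  have hst : ∀ z, (∀ y, Ev F y → ∀ N : ℕ, 0 < N → y ^ N = z ^ N → y = z) →
      ∀ A : End K V, (∀ (y : Kˣ) w, F w = (y : K) • w → A w = (if y = z then (1 : K) else 0) • w) →
      ∀ U, Stab (g : Set (End K V)) U → ∀ u ∈ U, A u ∈ U := by
    intro z hz A hA U hU u hu
    have key : ∀ t : Finset Kˣ, t ⊆ s.erase z → ∃ k : Kˣ → K, k z = 1 ∧ (∀ y ∈ t, k y = 0) ∧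
        ∑ y ∈ s, k y • π y u ∈ U := by
      intro t
      induction t using Finset.induction_on with
      | empty =>
        refine fun _ => ⟨1, rfl, by simp, ?_⟩
        simpa [← LinearMap.sum_apply, hπ1] using hu
      | insert a t _ ih =>
        intro ht
        obtain ⟨k, k1, k2, k3⟩ := ih ((Finset.subset_insert _ _).trans ht)
        obtain ⟨a1, a2⟩ := Finset.mem_erase.1 (ht (Finset.mem_insert_self _ _))
        obtain ⟨l, hl⟩ := exists_log fun N hN e => a1 (hz a ((hs a).1 a2) N hN e)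
        obtain ⟨h, hg, hh⟩ := hlog l
        have := sum_smul_mem h U (hU h hg) s (fun y => k y • π y u)
          (fun y => l (Additive.ofMul y))
          (fun y => if l (Additive.ofMul y) = l (Additive.ofMul z) then 1 else 0)
          (fun y hy => by
            rw [map_smul, ← End.mul_apply, (hπ h _ hh y hy).1, LinearMap.smul_apply, smul_comm])
          (fun i _ j _ e => by simp only [e]) k3
        refine ⟨fun y => (if l (Additive.ofMul y) = l (Additive.ofMul z) then 1 else 0) * k y,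
          by simp [k1], fun y hy => ?_, by simpa only [smul_smul] using this⟩
        rcases Finset.mem_insert.1 hy with rfl | hy
        · simp [hl]
        · simp [k2 y hy]
    obtain ⟨k, k1, k2, k3⟩ := key _ le_rfl
    convert k3
    conv_lhs => rw [← mul_one A, ← hπ1, Finset.mul_sum, LinearMap.sum_apply]
    refine Finset.sum_congr rfl fun y hy => ?_
    rw [(hπ A _ hA y hy).1, LinearMap.smul_apply]
    split_ifs with t
    · rw [t, k1]
    · rw [k2 y (Finset.mem_erase.2 ⟨t, hy⟩)]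
  refine ⟨v', ⟨hv', ?_, ?_, fun Z hZ => ?_, hst x h3 ((φ v').smulRight v) he, fun U hU u hu => ?_⟩,
    x', hxc, hκ⟩
  · by_contra c0
    exact h2 (E0 _ _ _ _ hx hx c0)
  · by_contra c0
    exact hne (mul_left_cancel (Units.ext ((E0 _ _ _ _ hx' hx' c0).trans hxc.symm)))
  · have hZ' : ∑ i ∈ s ×ˢ s, π i.1 * Z * π i.2 = Z := by
      rw [Finset.sum_product]
      simp only [← Finset.mul_sum, ← Finset.sum_mul, hπ1, mul_one, one_mul]
    have := sum_smul_mem (LinearMap.mulLeftRight K (F, F')) g ad (s ×ˢ s)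
      (fun i => π i.1 * Z * π i.2) (fun i => (i.1 / i.2 : Kˣ)) (fun i => κ i.1 - κ i.2)
      (fun i hi => ?_) (fun i hi j hj e => ?_) (hZ'.symm ▸ hZ)
    · convert this
      conv_lhs => rw [← hZ', Finset.mul_sum, Finset.sum_mul, ← Finset.sum_sub_distrib]
      refine Finset.sum_congr rfl fun i hi => ?_
      obtain ⟨a1, a2⟩ := Finset.mem_product.1 hi
      rw [← mul_assoc, ← mul_assoc, (hπ _ _ hκ _ a1).1, mul_assoc _ (π i.2), (hπ _ _ hκ _ a2).2]
      simp only [smul_mul_assoc, mul_smul_comm, sub_smul]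
    · obtain ⟨a1, a2⟩ := Finset.mem_product.1 hi
      have b1 := (hπ F Units.val (fun _ _ h => h) _ a1).1
      have b2 : π i.2 * F' = (i.2⁻¹ : Kˣ).val • π i.2 := by
        have := congrArg (· * F') (hπ F Units.val (fun _ _ h => h) _ a2).2
        simp only [mul_assoc, hFF, mul_one, smul_mul_assoc] at this
        conv_rhs => rw [this, smul_smul]
        simp
      rw [LinearMap.mulLeftRight_apply, ← mul_assoc, ← mul_assoc, b1, mul_assoc _ (π i.2), b2]
      simp only [smul_mul_assoc, mul_smul_comm, smul_smul, div_eq_mul_inv, Units.val_mul, mul_comm]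
    · obtain ⟨a1, a2⟩ := Finset.mem_product.1 hi
      obtain ⟨b1, b2⟩ := Finset.mem_product.1 hj
      have := kappa_rel (Ev F) rfl (fun t => hne (mul_right_cancel t).symm) hd
        (fun y z u hy hz hu e => (h4 y z u hy hz hu e).imp_right (Or.imp_right fun t =>
          Units.ext (t.trans hxc.symm))) κ (fun _ => rfl) ((hs _).1 a1) ((hs _).1 b2) ((hs _).1 b1)
        ((hs _).1 a2) (div_eq_div_iff_mul_eq_mul.1 (Units.ext e))
      linear_combination this
  · refine (U.smul_mem_iff L.ne).1 ?_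
    rw [smul_smul]
    refine hst x' (fun y hy N hN e => ?_) ((ε • φ v).smulRight v') he' U hU u hu
    have := h3 _ (hd y hy) N hN (by rw [div_pow, mul_pow, e, mul_div_cancel_left])
    rw [div_eq_iff_eq_mul, mul_comm] at this
    exact (mul_left_cancel this).symm

end Pool.Agent.Lib.MP_d61fbb_ag
end

-- part Pool.Agent.Lib.MP_d61fbb_ag.Main
section

/-!
A semisimple group of similitudes containing a diagonalisable element with an isolated eigenvalue
in every stable subspace has a Lie algebra containing the derived Lefschetz algebra.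
-/

set_option autoImplicit false

namespace Pool.Agent.Lib.MP_d61fbb_ag

open Matrix

open Classical in
theorem core {K n Γ : Type} [Field K] [CharZero K] [Fintype n] [DecidableEq n] [Group Γ]
    (ρ : Γ →* Matrix n n K) (B : Matrix n n K) (hB : B.det ≠ 0) (hsym : Bᵀ = B ∨ Bᵀ = -B)
    (χ : Γ → K) (hχ : ∀ γ, (ρ γ)ᵀ * B * ρ γ = χ γ • B)
    (hss : ∀ U, Stable ρ ⊤ U → ∃ U', IsCompl U U' ∧ Stable ρ ⊤ U')
    (hconn : ∀ H : Subgroup Γ, H.FiniteIndex → ∀ U, Stable ρ H U → Stable ρ ⊤ U)
    (F : Γ) (hdiag : Submodule.span K {w : n → K | ∃ y : K, ρ F *ᵥ w = y • w} = ⊤)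
    (hiso : ∀ U, Stable ρ ⊤ U → U ≠ ⊥ → ∃ v ∈ U, Isolated (ρ F) (χ F) v)
    (X : Matrix n n K) (hX : Lefschetz ρ B X) :
    (∀ Y, Lefschetz ρ B Y → Tangent (Set.range ρ) (X * Y - Y * X)) ∧
    ((∀ x x' : Kˣ, Eig (ρ F) x → (x' : K) * x = χ F → ∃ l : Additive Kˣ →+ K, ∀ y : Kˣ,
      Eig (ρ F) y → l (Additive.ofMul y) = (if y = x then 1 else 0) - (if y = x' then 1 else 0)) →
      Tangent (Set.range ρ) X) := by
  let T : Matrix n n K ≃ₐ[K] Module.End K (n → K) := Matrix.toLinAlgEquiv'
  let r : Γ →* Module.End K (n → K) := (T : Matrix n n K →* _).comp ρ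
  have hr : ∀ γ, r γ = T (ρ γ) := fun _ => rfl
  have hT : ∀ M u, T M u = M *ᵥ u := fun M u => Matrix.toLinAlgEquiv'_apply M u
  let φ : (n → K) →ₗ[K] (n → K) →ₗ[K] K := Matrix.toBilin' B
  have hφ : ∀ (M N : Matrix n n K) a b, φ (T M a) (T N b) = a ⬝ᵥ (Mᵀ * B * N) *ᵥ b := by
    intro M N a b
    rw [hT, hT, Matrix.toBilin'_apply', ← mulVec_mulVec, ← mulVec_mulVec, dotProduct_mulVec a,
      vecMul_transpose]
  have hφ1 : ∀ a b, φ a b = a ⬝ᵥ B *ᵥ b := Matrix.toBilin'_apply' B
  have sim : ∀ γ a b, φ (r γ a) (r γ b) = χ γ * φ a b := fun γ a b => by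
    rw [hr, hφ, hχ, hφ1, smul_mulVec, dotProduct_smul, smul_eq_mul]
  have hS : ∀ a ∈ Set.range ρ, ∀ b ∈ Set.range ρ, a * b ∈ Set.range ρ := by
    rintro _ ⟨a, rfl⟩ _ ⟨b, rfl⟩
    exact ⟨a * b, map_mul _ _ _⟩
  have h1 : (1 : Matrix n n K) ∈ Set.range ρ := ⟨1, map_one _⟩
  let g : Submodule K (Module.End K (n → K)) :=
    { carrier := {Z | T.symm Z ∈ tang (Set.range ρ) ∧
        ∃ s, ∀ a b, φ (Z a) b + φ a (Z b) = s * φ a b}
      zero_mem' := ⟨by simp, 0, by simp⟩
      add_mem' := by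
        rintro Z W ⟨a1, s, a2⟩ ⟨b1, t, b2⟩
        refine ⟨by rw [map_add]; exact Submodule.add_mem _ a1 b1, s + t, fun a b => ?_⟩
        simp only [LinearMap.add_apply, map_add]
        linear_combination a2 a b + b2 a b
      smul_mem' := by
        rintro c Z ⟨a1, s, a2⟩
        refine ⟨by rw [map_smul]; exact Submodule.smul_mem _ c a1, c * s, fun a b => ?_⟩
        simp only [LinearMap.smul_apply, map_smul, smul_eq_mul]
        linear_combination c * a2 a b }
  obtain ⟨ε, hε, hεB⟩ : ∃ ε : K, ε * ε = 1 ∧ B = ε • Bᵀ := by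
    rcases hsym with h | h
    · exact ⟨1, by simp, by simp [h]⟩
    · exact ⟨-1, by simp, by simp [h]⟩
  have L : LieData φ ε g := by
    refine ⟨fun a b => ?_, hε, fun a ha => ?_, ?_, fun Z hZ => hZ.2⟩
    · rw [hφ1, hφ1, dotProduct_mulVec b, ← mulVec_transpose, dotProduct_comm _ a, ← smul_eq_mul,
        ← dotProduct_smul, ← smul_mulVec, ← hεB]
    · refine Matrix.eq_zero_of_vecMul_eq_zero hB (funext fun i => ?_)
      have := ha (Pi.single i 1)
      rwa [hφ1, dotProduct_mulVec, dotProduct_single_one] at this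
    · rintro Z ⟨a1, s, a2⟩ W ⟨b1, t, b2⟩
      refine ⟨by rw [map_sub, map_mul, map_mul]; exact Tangent.bracket hS h1 a1 b1, 0,
        fun a b => ?_⟩
      simp only [LinearMap.sub_apply, Module.End.mul_apply, map_sub]
      linear_combination a2 (W a) b - b2 (Z a) b + a2 a (W b) - b2 a (Z b) + s * b2 a b - t * a2 a b
  have hinv : ∀ γ, r γ * r γ⁻¹ = 1 := fun γ => by rw [← map_mul, mul_inv_cancel, map_one]
  have ad : ∀ γ, ∀ Z ∈ g, r γ * Z * r γ⁻¹ ∈ g := by
    rintro γ Z ⟨a1, s, a2⟩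
    refine ⟨?_, s, fun a b => ?_⟩
    · rw [map_mul, map_mul, hr, hr, T.symm_apply_apply, T.symm_apply_apply]
      exact Tangent.conj hS h1 ⟨γ, rfl⟩ ⟨γ⁻¹, rfl⟩ (by rw [← map_mul, mul_inv_cancel, map_one]) a1
    · have e : ∀ a, r γ (r γ⁻¹ a) = a := fun a => LinearMap.congr_fun (hinv γ) a
      have e1 := sim γ (Z (r γ⁻¹ a)) (r γ⁻¹ b)
      have e2 := sim γ (r γ⁻¹ a) (Z (r γ⁻¹ b))
      have e3 := sim γ (r γ⁻¹ a) (r γ⁻¹ b)
      simp only [e] at e1 e2 e3
      simp only [Module.End.mul_apply]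
      linear_combination e1 + e2 - s * e3 + χ γ * a2 (r γ⁻¹ a) (r γ⁻¹ b)
  have hst : ∀ U, Stab (Set.range r) U ↔ Stable ρ ⊤ U := fun U =>
    ⟨fun h γ _ u hu => hT _ _ ▸ h _ ⟨γ, rfl⟩ u hu, by
      rintro h _ ⟨γ, rfl⟩ u hu
      rw [hr, hT]
      exact h γ trivial u hu⟩
  have hne : ∀ (y : K) w, w ≠ 0 → ρ F *ᵥ w = y • w → y ≠ 0 := by
    rintro y w hw e rfl
    have := LinearMap.congr_fun (hinv F⁻¹) w
    rw [inv_inv, Module.End.mul_apply, hr F, hT, e, zero_smul, map_zero] at this
    exact hw this.symm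
  have hF : Diag (r F) := by
    refine top_le_iff.1 (hdiag ▸ Submodule.span_le.2 ?_)
    rintro w ⟨y, hy⟩
    by_cases c : w = 0
    · simp [c]
    · exact Submodule.subset_span ⟨Units.mk0 y (hne y w c hy), (hT _ _).trans hy⟩
  have hlog : ∀ l : Additive Kˣ →+ K, ∃ h ∈ g, ∀ (y : Kˣ) w, r F w = (y : K) • w →
      h w = l (Additive.ofMul y) • w := by
    intro l
    obtain ⟨s, π, -, hπ1, hπ⟩ := hF.proj
    have hh : ∀ (y : Kˣ) w, r F w = (y : K) • w →
        (∑ z ∈ s, l (Additive.ofMul z) • π z) w = l (Additive.ofMul y) • w := by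
      intro y w hw
      conv_rhs => rw [← Module.End.one_apply (R := K) w, ← hπ1]
      rw [LinearMap.sum_apply, LinearMap.sum_apply, Finset.smul_sum]
      refine Finset.sum_congr rfl fun z hz => ?_
      have := LinearMap.congr_fun (hπ _ Units.val (fun _ _ h => h) z hz).2 w
      rw [Module.End.mul_apply, hw, map_smul, LinearMap.smul_apply, ← sub_eq_zero, ← sub_smul,
        smul_eq_zero, sub_eq_zero] at this
      rcases this with t | t
      · rw [Units.ext t, LinearMap.smul_apply]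
      · simp [t]
    refine ⟨_, ⟨?_, if h : χ F ≠ 0 then l (Additive.ofMul (Units.mk0 _ h)) else 0,
      fun a b => ?_⟩, hh⟩
    · simp only [map_sum, map_smul]
      refine tangent_log (S := Set.range ρ) s id (fun z => T.symm (π z))
        (fun N => ⟨F ^ N, T.injective ?_⟩)
        (by rw [← map_sum, hπ1, map_one]) l
      simp only [map_sum, map_smul, T.apply_symm_apply, ← hr, id]
      rw [← mul_one (r _), ← hπ1, Finset.mul_sum]
      refine Finset.sum_congr rfl fun z hz => (hπ _ (fun y => (y : K) ^ N) (fun y w hw => ?_) z hz).1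
      rw [map_pow]
      simpa using Module.End.aeval_apply_of_mem_apply_eq_smul (p := Polynomial.X ^ N) hw
    · generalize ∑ z ∈ s, l (Additive.ofMul z) • π z = h at hh
      refine LinearMap.congr_fun₂ (hF.ext (A := φ ∘ₗ h + φ.compl₂ h) 
        (B := (if h : χ F ≠ 0 then l (Additive.ofMul (Units.mk0 _ h)) else 0) • φ)
        fun y u _ hu => hF.ext fun z w _ hw => ?_) a b
      simp only [LinearMap.add_apply, LinearMap.comp_apply, LinearMap.compl₂_apply, hh y u hu,
        hh z w hw, map_smul, LinearMap.smul_apply, smul_eq_mul]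
      by_cases c : φ u w = 0
      · simp [c]
      have e := sim F u w
      rw [hu, hw, map_smul, map_smul, LinearMap.smul_apply, smul_eq_mul, smul_eq_mul,
        ← mul_assoc] at e
      have e2 := mul_right_cancel₀ c e
      have e3 : χ F ≠ 0 := e2 ▸ (z * y).ne_zero
      rw [dif_pos e3, show Units.mk0 _ e3 = z * y from Units.ext e2.symm, ofMul_mul, map_add]
      ring
  have hL : ∀ X, Lefschetz ρ B X → (∀ a b, φ (T X a) b + φ a (T X b) = 0) ∧
      ∀ U, Stab (Set.range r) U → ∀ u ∈ U, T X u ∈ U := by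
    rintro X ⟨a1, a2⟩
    refine ⟨fun a b => ?_, fun U hU u hu => ?_⟩
    · have e1 := hφ X 1 a b
      have e2 := hφ 1 X a b
      simp only [map_one, Module.End.one_apply, mul_one, transpose_one, one_mul] at e1 e2
      rw [e1, e2, ← dotProduct_add, ← add_mulVec, a1, zero_mulVec, dotProduct_zero]
    · obtain ⟨U', h2, h3⟩ := hss U ((hst U).1 hU)
      have h4 := congrArg T (a2 (T.symm (U.projection U' h2)) fun γ => T.injective (by
        simp only [map_mul, T.apply_symm_apply, ← hr]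
        refine LinearMap.ext_on_codisjoint h2.codisjoint (fun a ha => ?_) fun a ha => ?_
        · simp [Submodule.projection_apply_of_mem_left _ ha,
            Submodule.projection_apply_of_mem_left _ (hU _ ⟨γ, rfl⟩ a ha)]
        · simp [Submodule.projection_apply_of_mem_right _ ha,
            Submodule.projection_apply_of_mem_right _ ((hst U').2 h3 _ ⟨γ, rfl⟩ a ha)]))
      have h5 := LinearMap.congr_fun h4 u
      simp only [map_mul, T.apply_symm_apply, Module.End.mul_apply,
        Submodule.projection_apply_of_mem_left _ hu] at h5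
      rw [h5]
      exact Submodule.projection_apply_mem _ _
  have hE : ∀ y, Ev (r F) y → Eig (ρ F) y := fun y ⟨w, b1, b2⟩ => ⟨w, b1, (hT _ _).symm.trans b2⟩
  let G : (n → K) → (n → K) → Prop := fun v v' => Pair φ ε g v v' ∧ ∃ x x' : Kˣ, Eig (ρ F) x ∧
    (x' : K) * x = χ F ∧ ∀ (y : Kˣ) w, r F w = (y : K) • w →
      EE φ ε v v' w = ((if y = x then 1 else 0) - (if y = x' then 1 else 0) : K) • w
  have main := global_mem L (r := r) G (fun _ _ h => h.1) ad (fun γ => ⟨χ γ, sim γ⟩) ?_ ?_ ?_ ?_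
  · refine ⟨fun Y hY => ?_, fun h => ?_⟩
    · have := br_mem L G (fun _ _ h => h.1) ?_ (main _ (hL X hX).1 (hL X hX).2)
        (main _ (hL Y hY).1 (hL Y hY).2)
      · have : X * Y - Y * X ∈ tang (Set.range ρ) := by simpa using this.1
        exact this
      · rintro v v' w w' ⟨-, x, x', -, -, h2⟩ ⟨-, z, z', -, -, h3⟩
        exact hF.ext fun y u _ hu => by
          simp only [Module.End.mul_apply, h2 y u hu, h3 y u hu, map_smul, smul_smul, mul_comm]
    · have := (sup_le le_rfl (Submodule.span_le.2 ?_) : _ ≤ g) (main _ (hL X hX).1 (hL X hX).2)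
      · have : X ∈ tang (Set.range ρ) := by simpa using this.1
        exact this
      · rintro _ ⟨v, v', ⟨-, x, x', a1, a2, a3⟩, rfl⟩
        obtain ⟨l, hl⟩ := h x x' a1 a2
        obtain ⟨Z, hZ, a4⟩ := hlog l
        have : EE φ ε v v' = Z := hF.ext fun y u hy hu => by
          rw [a3 y u hu, a4 y u hu, hl y (hE y hy)]
        exact this ▸ hZ
  · exact fun H hH U hU => (hst U).2 (hconn H hH U fun γ hγ u hu => hT _ _ ▸ hU _ ⟨γ, hγ, rfl⟩ u hu)
  · intro U hU
    obtain ⟨U', h2, h3⟩ := hss U ((hst U).1 hU)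
    exact ⟨U', h2, (hst U').2 h3⟩
  · rintro U hU Z ⟨a1, -⟩ u hu
    rw [← T.apply_symm_apply Z]
    have a2 := Tangent.mem_span a1
    generalize T.symm Z = M at a2
    induction a2 using Submodule.span_induction with
    | mem M hM =>
      obtain ⟨γ, rfl⟩ := hM
      exact hU _ ⟨γ, rfl⟩ u hu
    | zero => simp
    | add _ _ _ _ b1 b2 => simpa using U.add_mem b1 b2
    | smul c _ _ b1 => simpa using U.smul_mem c b1
  · intro U hU h0
    obtain ⟨v, hvU, hv, x, a1, a2, a3, a4⟩ := hiso U ((hst U).1 hU) h0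
    have hx := hne x v hv ((a1 v).2 ⟨1, (one_smul _ _).symm⟩)
    obtain ⟨v', h, x', h'⟩ := pair_of_isolated L hF (hinv F) (sim F) (ad F) hlog hv (x := Units.mk0 x hx)
      (fun w => by rw [hr, hT]; exact a1 w) a2
      (fun y hy N hN e => Units.ext (a3 y (hE y hy) N hN (congrArg Units.val e)))
      (fun y z u hy hz hu e => (a4 y z u (hE y hy) (hE z hz) (hE u hu) (congrArg Units.val e)).imp
        Units.ext (Or.imp_left Units.ext))
    exact ⟨v, v', ⟨h, _, x', ⟨v, hv, (a1 v).2 ⟨1, (one_smul _ _).symm⟩⟩, h'⟩, hvU⟩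

end Pool.Agent.Lib.MP_d61fbb_ag
end
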