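import Mathlib
import Pool.Agent.Lib.MP_0d42ed_ag.Assemble

/-!
Multiplicative relations between the roots of a Weil polynomial of prime power degree.
-/

set_option autoImplicit false

namespace Pool.Agent.Lib.MP_d61fbb_ag

open Polynomial Pool.Agent.Lib.MP_0d42ed_ag

theorem odd_sum {L K : Type} [Field L] [NumberField L] [Field K] [CharZero K] {Q : ℚ[X]}
    (hQ : Q ≠ 0) (hsplit : (Q.map (algebraMap ℚ L)).Splits) (θ : L →ₐ[ℚ] K) {s : ℚ} (hs : s ≠ 0)
    (hW : ∀ z : ℂ, aeval z Q = 0 → ‖z‖ ^ 2 = s)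
    (hpair : ∀ l : List (Q.rootSet L), l ≠ [] → Good (s : L) (l.map Subtype.val) →
      ∃ x y l', l.Perm (x :: y :: l') ∧ ∃ M, M = 1 ∧ 0 < M ∧ ((x : L) * y) ^ M = (s : L) ^ M)
    (κ : K → ℤ) (hκ : ∀ μ ν : K, μ * ν = s → κ μ + κ ν = 0) (m : List K)
    (hm : ∀ μ ∈ m, aeval μ Q = 0) (j : ℤ) (N : ℕ) (hN : 0 < N)
    (h : m.prod ^ N = ((s : K) ^ j) ^ N) : (m.map κ).sum = 0 := by
  have hG : Good (s : K) m := by
    obtain ⟨l, rfl⟩ : ∃ l : List (Q.rootSet L), l.map (fun x : Q.rootSet L => θ x) = m := by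
      clear h
      induction m with
      | nil => exact ⟨[], rfl⟩
      | cons μ l ih =>
        obtain ⟨m, rfl⟩ := ih fun ν hν => hm ν (List.mem_cons_of_mem _ hν)
        obtain ⟨x, rfl⟩ := exists_root_map hQ hsplit θ (hm μ List.mem_cons_self)
        exact ⟨x :: m, rfl⟩
    let φ : L →ₐ[ℚ] ℂ := IsAlgClosed.lift
    have h1 : ∀ l : List (Q.rootSet L), ‖φ (l.map Subtype.val).prod‖ ^ 2 = (s : ℝ) ^ l.length := by
      intro l
      induction l with
      | nil => simp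
      | cons x l ih =>
        rw [List.map_cons, List.prod_cons, map_mul, norm_mul, mul_pow, ih,
          hW _ (mem_rootSet_map φ x), List.length_cons, pow_succ']
    have h2 : (l.map Subtype.val).prod ^ N = ((s : L) ^ j) ^ N := by
      refine θ.injective ?_
      change θ _ = θ _
      rw [map_pow, map_pow, map_zpow₀, map_ratCast, map_list_prod, List.map_map, ← h]
      rfl
    have h3 := congrArg (fun z => ‖φ z‖ ^ 2) h2
    simp only [map_pow, map_zpow₀, map_ratCast, norm_pow] at h3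
    rw [← pow_mul, mul_comm, pow_mul, h1, ← pow_mul, ← pow_mul, mul_comm N, pow_mul _ 2,
      ← Complex.ofReal_ratCast, ← Complex.ofReal_zpow, Complex.norm_real, Real.norm_eq_abs,
      sq_abs] at h3
    have h4 : s ^ (l.length * N) = ((s ^ j) ^ 2) ^ N := by exact_mod_cast h3
    refine ⟨N, hN, ?_⟩
    rw [mul_comm 2, pow_mul, h, List.length_map, mul_comm N, ← pow_mul, mul_comm N, pow_mul]
    exact_mod_cast congrArg (Rat.cast : ℚ → K) h4.symm
  clear h
  induction hl : m.length using Nat.strong_induction_on generalizing m with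
  | _ k ih =>
    by_cases c : m = []
    · simp [c]
    obtain ⟨μ, ν, l', h1, h2, _, rfl, h3⟩ := pair_roots hQ hsplit θ hs (· = 1) hpair m hm c hG
    rw [(h1.map κ).sum_eq, List.map_cons, List.map_cons, List.sum_cons, List.sum_cons,
      ih l'.length (by rw [← hl, h1.length_eq]; simp) l' (fun y hy => hm y (h1.mem_iff.2
        (by simp [hy]))) h2 rfl, add_zero]
    exact hκ μ ν (by simpa using h3)

theorem weil_pairing (p r : ℕ) [Fact p.Prime] (hr : 0 < r)
    (P : ℤ[X]) (hmonic : P.Monic) (hirr : Irreducible P)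
    (hWeil : ∀ z : ℂ, aeval z P = 0 → ‖z‖ ^ 2 = (p : ℝ) ^ r)
    (l k : ℕ) (hl : l.Prime) (hdeg : P.natDegree = 2 * l ^ k)
    (slope : PadicAlgCl p → ℚ)
    (hslope : ∀ α : PadicAlgCl p, aeval α P = 0 → ‖α‖ = ((p : ℝ) ^ r) ^ (-(slope α : ℝ)))
    (hNP : ∀ ε : PadicAlgCl p → ℤ, (∀ α, ε α = 1 ∨ ε α = -1) → ∀ S : ℚ,
      S = ∑ᶠ (α : PadicAlgCl p) (_ : aeval α P = 0 ∧ slope α < 1 / 2),
        (ε α : ℚ) * (1 - 2 * slope α) →
      S ≠ 0 ∧ ∀ β, aeval β P = 0 → padicNorm l (1 - 2 * slope β) ≤ padicNorm l S)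
    (K : Type) [Field K] [CharZero K] [IsAlgClosed K] :
    (P.map (Int.castRingHom K)).Separable ∧
    (∀ x : K, aeval x P = 0 → x ≠ 0 ∧ x * x ≠ (p : K) ^ r ∧ aeval ((p : K) ^ r / x) P = 0) ∧
    ∀ κ : K → ℤ, (∀ μ ν, μ * ν = (p : K) ^ r → κ μ + κ ν = 0) → ∀ m : List K,
      (∀ μ ∈ m, aeval μ P = 0) → ∀ (j : ℤ) (N : ℕ), 0 < N → m.prod ^ N = (((p : K) ^ r) ^ j) ^ N →
      (m.map κ).sum = 0 := by
  classical
  have hp : p.Prime := Fact.out
  set Q : ℚ[X] := P.map (algebraMap ℤ ℚ) with hQ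
  have hQi : Irreducible Q := (hmonic.irreducible_iff_irreducible_map_fraction_map).mp hirr
  have hs : ((p : ℚ) ^ r) ≠ 0 := pow_ne_zero _ (by exact_mod_cast hp.ne_zero)
  have hW : ∀ z : ℂ, aeval z Q = 0 → ‖z‖ ^ 2 = (((p : ℚ) ^ r : ℚ) : ℝ) := by
    intro z hz
    rw [hQ, aeval_map_algebraMap] at hz
    rw [hWeil z hz]; simp
  obtain ⟨L, _, _, hGal, hsplit, -⟩ := exists_splitting Q hQi
  let ψ : L →ₐ[ℚ] PadicAlgCl p := IsAlgClosed.lift
  have hroot : ∀ y : Q.rootSet L, aeval (ψ y) P = 0 := fun y =>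
    (aeval_map_algebraMap ℚ (ψ y) P).symm.trans (mem_rootSet_map ψ y)
  let w : Q.rootSet L → ℚ := fun y => 1 - 2 * slope (ψ y)
  have hκ : (1 : ℝ) < (p : ℝ) ^ r := one_lt_pow₀ (by exact_mod_cast hp.one_lt) hr.ne'
  have hw : ∀ y : Q.rootSet L, ‖ψ y‖ ^ 2 =
      ‖((((p : ℚ) ^ r : ℚ)) : PadicAlgCl p)‖ * ((p : ℝ) ^ r) ^ (w y : ℝ) :=
    fun y => norm_sq_eq_of_slope (hslope _ (hroot y))
  have h0 := relData_bot hQi hs hW ψ w hκ hw
  have hNP' : ∀ ε : Q.rootSet L → ℤ, (∀ y, ε y = 1 ∨ ε y = -1) →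
      (∑ y with 0 < w y, (ε y : ℚ) * w y) ≠ 0 ∧
        ∀ z, padicNorm l (w z) ≤ padicNorm l (∑ y with 0 < w y, (ε y : ℚ) * w y) := by
    intro ε hε
    obtain ⟨ε', hε', hsum⟩ := finsum_slopes hQi.ne_zero hsplit ψ slope ε hε
    simp only [hQ, aeval_map_algebraMap] at hsum
    obtain ⟨h1, h2⟩ := hNP ε' hε' _ hsum
    exact ⟨h1, fun z => h2 _ (hroot z)⟩
  have hcard : Fintype.card (Q.rootSet L) = 2 * l ^ k := by
    rw [card_rootSet_eq_natDegree hQi.separable hsplit, hQ, hmonic.natDegree_map, hdeg]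
  have hw0 : ∃ y, w y ≠ 0 := by
    by_contra hcon
    push Not at hcon
    apply (hNP' (fun _ => 1) (fun _ => Or.inl rfl)).1
    simp [hcon]
  let θ : L →ₐ[ℚ] K := IsAlgClosed.lift
  have hPQ : ∀ x : K, aeval x Q = aeval x P := fun x => aeval_map_algebraMap ℚ x P
  have hq : (((p : ℚ) ^ r : ℚ) : K) = (p : K) ^ r := by simp
  refine ⟨?_, fun x hx => ?_, fun κ hκ' m hm j N hN h => ?_⟩
  · have := hQi.separable.map (f := algebraMap ℚ K)
    rwa [hQ, Polynomial.map_map, RingHom.ext_int (RingHom.comp _ _) (Int.castRingHom K)] at this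
  · obtain ⟨y, rfl⟩ := exists_root_map hQi.ne_zero hsplit θ ((hPQ x).trans hx)
    have h1 := root_ne_zero hs hW y
    refine ⟨(map_ne_zero θ).2 h1, fun e => h0.c_ne hw0 y (Subtype.ext ?_), ?_⟩
    · refine (div_eq_iff h1).2 (θ.injective ?_)
      change θ _ = θ _
      rw [map_mul, e, map_ratCast, hq]
    · have := mem_rootSet_map θ (cj hQi.ne_zero hs hW y)
      rwa [hPQ, cj, map_div₀, map_ratCast, hq] at this
  · refine odd_sum hQi.ne_zero hsplit θ hs hW ?_ κ (by rwa [hq]) m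
      (fun μ hμ => (hPQ μ).trans (hm μ hμ)) j N hN (by rwa [hq])
    rintro m hne ⟨N', hN', hG⟩
    obtain ⟨a, b, m', hperm, hab⟩ := pairing h0 Eq eq_equivalence (fun σ x y h => h ▸ rfl)
      (fun x y h => h ▸ rfl) (fun x y h σ => h ▸ rfl)
      (fun R hR _ => hR.eq_bot_of_primePow hl hcard hNP') hw0 m
      (sum_eq_zero_of_rel hs ψ w hκ hw m hN' (by simpa using hG)) hne
    refine ⟨a, b, m', hperm, 1, rfl, one_pos, ?_⟩
    rw [← hab, pow_one, pow_one]
    exact mul_div_cancel₀ _ (root_ne_zero hs hW a)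

theorem exists_log_of_odd {K : Type} [Field K] [CharZero K] (E : K → Prop) (q : Kˣ)
    (hE : ∀ x, E x → E (q / x)) (κ : K → ℤ) (hκ : ∀ μ ν : K, μ * ν = q → κ μ + κ ν = 0)
    (h : ∀ m : List K, (∀ μ ∈ m, E μ) → ∀ j : ℤ, m.prod = (q : K) ^ j → (m.map κ).sum = 0) :
    ∃ l : Additive Kˣ →+ K, ∀ y : Kˣ, E y → l (Additive.ofMul y) = κ y := by
  let S : AddSubgroup (Additive Kˣ × K) :=
    AddSubgroup.closure {z | ∃ y : Kˣ, E y ∧ z = (Additive.ofMul y, (κ y : K))}
  have key : ∀ z ∈ S, ∃ m : List Kˣ, (∀ μ ∈ m, E μ) ∧ ∃ j : ℤ, z.1.toMul * q ^ j = m.prod ∧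
      z.2 = ((m.map fun y : Kˣ => κ y).sum : ℤ) := by
    intro z hz
    induction hz using AddSubgroup.closure_induction with
    | mem z hz =>
      obtain ⟨y, hy, rfl⟩ := hz
      exact ⟨[y], by simpa using hy, 0, by simp, by simp⟩
    | zero => exact ⟨[], by simp, 0, by simp, by simp⟩
    | add a b _ _ ha hb =>
      obtain ⟨m1, a1, j1, a2, a3⟩ := ha
      obtain ⟨m2, b1, j2, b2, b3⟩ := hb
      refine ⟨m1 ++ m2, fun μ hμ => (List.mem_append.1 hμ).elim (a1 μ) (b1 μ), j1 + j2, ?_, ?_⟩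
      · rw [List.prod_append, ← a2, ← b2, Prod.fst_add, toMul_add, zpow_add, mul_mul_mul_comm]
      · rw [Prod.snd_add, a3, b3, List.map_append, List.sum_append, Int.cast_add]
    | neg a _ ha =>
      obtain ⟨m, a1, j, a2, a3⟩ := ha
      have e : (m.map fun y => q / y).prod = q ^ (m.length : ℤ) / m.prod ∧
          ((m.map fun y => q / y).map fun y : Kˣ => κ y).sum = -(m.map fun y : Kˣ => κ y).sum := by
        clear a1 a2 a3
        induction m with
        | nil => simp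
        | cons y m ih =>
          simp only [List.map_cons, List.prod_cons, List.sum_cons, ih.1, ih.2, List.length_cons]
          refine ⟨by rw [div_mul_div_comm, Nat.cast_succ, zpow_add_one, mul_comm q], ?_⟩
          have := hκ (q / y : Kˣ) y (by simp)
          omega
      refine ⟨m.map fun y => q / y, fun μ hμ => ?_, m.length - j, ?_, ?_⟩
      · obtain ⟨y, hy, rfl⟩ := List.mem_map.1 hμ
        simpa using hE y (a1 y hy)
      · rw [e.1, ← a2, Prod.fst_neg, toMul_neg, zpow_sub, div_eq_mul_inv, mul_inv]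
        simp only [mul_comm, mul_left_comm, mul_assoc]
      · rw [e.2, Prod.snd_neg, a3, Int.cast_neg]
  obtain ⟨l, hl⟩ := (Module.Baer.of_divisible K).extension_property_addMonoidHom
    ((AddMonoidHom.fst _ _).comp S.subtype) ((injective_iff_map_eq_zero _).2 fun z hz => by
      obtain ⟨m, a1, j, a2, a3⟩ := key z z.2
      have h1 : z.1.1 = 0 := hz
      rw [h1, toMul_zero, one_mul] at a2
      have h2 := h (m.map Units.val) (by simpa using a1) j (by
        rw [← Units.val_zpow_eq_zpow_val, a2]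
        exact (map_list_prod (Units.coeHom K) m).symm)
      rw [List.map_map] at h2
      exact Subtype.ext (Prod.ext h1 (a3.trans (Int.cast_eq_zero.2 h2))))
    ((AddMonoidHom.snd _ _).comp S.subtype)
  exact ⟨l, fun y hy => DFunLike.congr_fun hl ⟨_, AddSubgroup.subset_closure ⟨y, hy, rfl⟩⟩⟩

end Pool.Agent.Lib.MP_d61fbb_ag
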